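import Mathlib

/-!
# The squeezing function: definitions
-/

set_option autoImplicit false

namespace N298.SQ

open Set Metric
open scoped ContDiff

variable {n : ℕ}

/-- An injective holomorphic map of `D` into the unit ball (in equal dimensions such a map is
biholomorphic onto its open image). -/
structure IsEmb (D : Set (EuclideanSpace ℂ (Fin n)))
    (F : EuclideanSpace ℂ (Fin n) → EuclideanSpace ℂ (Fin n)) : Prop where
  holo : DifferentiableOn ℂ F D
  inj : InjOn F D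
  maps : MapsTo F D (ball 0 1)

/-- The squeezing function `s_D`. -/
noncomputable def squeeze (D : Set (EuclideanSpace ℂ (Fin n))) (z : EuclideanSpace ℂ (Fin n)) : ℝ :=
  sSup {r : ℝ | 0 < r ∧ ∃ F : EuclideanSpace ℂ (Fin n) → EuclideanSpace ℂ (Fin n),
    IsEmb D F ∧ F z = 0 ∧ ball 0 r ⊆ F '' D}

/-- `r` is a smooth defining function of `D` on the open set `U`: the boundary of `D` in `U` is
`{r = 0}`, it is smooth, and `D` lies on its side `r < 0`. -/
structure LocDef (D U : Set (EuclideanSpace ℂ (Fin n))) (r : EuclideanSpace ℂ (Fin n) → ℝ) :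
    Prop where
  isOpen : IsOpen U
  smooth : ContDiffOn ℝ ∞ r U
  eq : D ∩ U = {z ∈ U | r z < 0}
  grad : ∀ z ∈ U, r z = 0 → fderiv ℝ r z ≠ 0

/-- Second derivative of `r` at `q` in the real direction `v`. -/
noncomputable def hess (r : EuclideanSpace ℂ (Fin n) → ℝ) (q v : EuclideanSpace ℂ (Fin n)) : ℝ :=
  deriv (deriv fun t : ℝ => r (q + t • v)) 0

/-- The Levi form `∑ ∂²r/∂z_j∂z̄_k v_j v̄_k` at `q`. -/
noncomputable def levi (r : EuclideanSpace ℂ (Fin n) → ℝ) (q v : EuclideanSpace ℂ (Fin n)) : ℝ :=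
  (hess r q v + hess r q (Complex.I • v)) / 4

/-- `v` is a complex tangent vector of `{r = r q}` at `q`. -/
def IsTan (r : EuclideanSpace ℂ (Fin n) → ℝ) (q v : EuclideanSpace ℂ (Fin n)) : Prop :=
  fderiv ℝ r q v = 0 ∧ fderiv ℝ r q (Complex.I • v) = 0

/-- `∂D` is smooth near its point `p`. -/
def SmoothNear (D : Set (EuclideanSpace ℂ (Fin n))) (p : EuclideanSpace ℂ (Fin n)) : Prop :=
  ∃ U r, LocDef D U r ∧ p ∈ U ∧ r p = 0

/-- `∂D` is smooth and Levi-pseudoconvex near its point `p`. -/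
def LeviPscNear (D : Set (EuclideanSpace ℂ (Fin n))) (p : EuclideanSpace ℂ (Fin n)) : Prop :=
  ∃ U r, LocDef D U r ∧ p ∈ U ∧ r p = 0 ∧ ∀ q ∈ U, r q = 0 → ∀ v, IsTan r q v → 0 ≤ levi r q v

/-- `∂D` is smooth near its point `p`, and `p` is strongly (Levi) pseudoconvex. -/
def StronglyPsc (D : Set (EuclideanSpace ℂ (Fin n))) (p : EuclideanSpace ℂ (Fin n)) : Prop :=
  ∃ U r, LocDef D U r ∧ p ∈ U ∧ r p = 0 ∧ ∀ v, v ≠ 0 → IsTan r p v → 0 < levi r p v

/-- The Levi form at `p` has at least `k` positive eigenvalues (it is positive definite on a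
complex subspace of dimension `≥ k` of the complex tangent space). -/
def LeviRank (D : Set (EuclideanSpace ℂ (Fin n))) (p : EuclideanSpace ℂ (Fin n)) (k : ℕ) : Prop :=
  ∃ U r, LocDef D U r ∧ p ∈ U ∧ r p = 0 ∧ ∃ V : Submodule ℂ (EuclideanSpace ℂ (Fin n)),
    k ≤ Module.finrank ℂ V ∧ ∀ v ∈ V, v ≠ 0 → IsTan r p v ∧ 0 < levi r p v

/-- `ν(r ∘ γ) ≤ T ν(γ - q)` for all germs of holomorphic curves `γ` with `γ(0) = q`: if `γ - q`
does not vanish to order `k + 1` and `r ∘ γ` vanishes to order `m`, then `m ≤ T k`. -/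
def TypeLE (r : EuclideanSpace ℂ (Fin n) → ℝ) (q : EuclideanSpace ℂ (Fin n)) (T : ℝ) : Prop :=
  ∀ γ : ℂ → EuclideanSpace ℂ (Fin n), AnalyticAt ℂ γ 0 → γ 0 = q → ∀ k m : ℕ,
    ¬ ((fun ζ => γ ζ - q) =O[nhds 0] fun ζ : ℂ => ‖ζ‖ ^ (k + 1)) →
    ((fun ζ => r (γ ζ)) =O[nhds 0] fun ζ : ℂ => ‖ζ‖ ^ m) → (m : ℝ) ≤ T * k

/-- `∂D` is smooth near its point `q`, and `q` is a point of finite (D'Angelo) type. -/
def FiniteTypeAt (D : Set (EuclideanSpace ℂ (Fin n))) (q : EuclideanSpace ℂ (Fin n)) : Prop :=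
  ∃ U r, LocDef D U r ∧ q ∈ U ∧ r q = 0 ∧ ∃ T : ℝ, TypeLE r q T

/-- All boundary points near `p` are smooth of finite type. -/
def FiniteTypeNear (D : Set (EuclideanSpace ℂ (Fin n))) (p : EuclideanSpace ℂ (Fin n)) : Prop :=
  ∃ U, IsOpen U ∧ p ∈ U ∧ ∀ q ∈ U ∩ frontier D, FiniteTypeAt D q

/-- Bounded domain. -/
structure IsBddDomain (D : Set (EuclideanSpace ℂ (Fin n))) : Prop where
  isOpen : IsOpen D
  conn : IsConnected D
  bdd : Bornology.IsBounded D

/-- Class (A). -/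
structure AdmA (D : Set (EuclideanSpace ℂ (Fin n))) (p : EuclideanSpace ℂ (Fin n)) : Prop where
  dom : IsBddDomain D
  mem : p ∈ frontier D
  dim : n = 2
  psc : LeviPscNear D p
  fin : FiniteTypeAt D p

/-- Class (B). -/
structure AdmB (D : Set (EuclideanSpace ℂ (Fin n))) (p : EuclideanSpace ℂ (Fin n)) : Prop where
  dom : IsBddDomain D
  mem : p ∈ frontier D
  dim : 2 ≤ n
  psc : LeviPscNear D p
  fin : FiniteTypeNear D p
  rank : LeviRank D p (n - 2)

/-- Class (C). -/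
structure AdmC (D : Set (EuclideanSpace ℂ (Fin n))) (p : EuclideanSpace ℂ (Fin n)) : Prop where
  dom : IsBddDomain D
  mem : p ∈ frontier D
  dim : 2 ≤ n
  conv : Convex ℝ D
  smooth : SmoothNear D p
  fin : FiniteTypeNear D p

end N298.SQ
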