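import Pool.Agent.N298.SQ.Squeeze

/-!
# The boundary of the egg
-/

set_option autoImplicit false

namespace N298.SQ

open Set Metric Filter Topology
open scoped ContDiff

variable {n : ℕ} {i0 i1 : Fin n}

lemma coord_contDiff (i : Fin n) : ContDiff ℝ ∞ fun z : EuclideanSpace ℂ (Fin n) => ‖z i‖ ^ 2 := by
  have h1 : ContDiff ℝ ∞ fun z : EuclideanSpace ℂ (Fin n) => z i := by fun_prop
  exact h1.norm_sq ℝ

lemma rho_contDiff : ContDiff ℝ ∞ (rho i0 i1) := by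
  have e : (rho i0 i1) = fun z : EuclideanSpace ℂ (Fin n) => ‖z i0‖ ^ 2 +
      ∑ i ∈ (Finset.univ.erase i0).erase i1, ‖z i‖ ^ 2 + (‖z i1‖ ^ 2) ^ 2 - 1 := by
    funext z
    unfold rho RR
    ring
  rw [e]
  exact (((coord_contDiff i0).add (ContDiff.sum fun i _ => coord_contDiff i)).add
    ((coord_contDiff i1).pow 2)).sub contDiff_const

lemma rho_cont : Continuous (rho i0 i1) := rho_contDiff.continuous

/-- expansion along a line -/
lemma sq_line (a v : ℂ) (t : ℝ) :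
    ‖a + t • v‖ ^ 2 = ‖a‖ ^ 2 + t * (2 * (a * (starRingEnd ℂ) v).re) + t ^ 2 * ‖v‖ ^ 2 := by
  simp only [Complex.sq_norm, Complex.normSq_apply, Complex.add_re, Complex.add_im,
    Complex.real_smul, Complex.mul_re, Complex.mul_im, Complex.ofReal_re, Complex.ofReal_im,
    Complex.conj_re, Complex.conj_im]
  ring

noncomputable def Bc (q v : EuclideanSpace ℂ (Fin n)) (i : Fin n) : ℝ :=
  2 * (q i * (starRingEnd ℂ) (v i)).re

noncomputable def A1 (i0 i1 : Fin n) (q v : EuclideanSpace ℂ (Fin n)) : ℝ :=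
  Bc q v i0 + ∑ i ∈ (Finset.univ.erase i0).erase i1, Bc q v i

lemma rho_line (q v : EuclideanSpace ℂ (Fin n)) (t : ℝ) :
    rho i0 i1 (q + t • v) = rho i0 i1 q + t * (A1 i0 i1 q v + 2 * ‖q i1‖ ^ 2 * Bc q v i1) +
      t ^ 2 * (‖v i0‖ ^ 2 + RR i0 i1 v + Bc q v i1 ^ 2 + 2 * ‖q i1‖ ^ 2 * ‖v i1‖ ^ 2) +
      t ^ 3 * (2 * Bc q v i1 * ‖v i1‖ ^ 2) + t ^ 4 * ‖v i1‖ ^ 4 := by
  have hc : ∀ i, (q + t • v) i = q i + t • v i := fun i => rfl
  have hR : RR i0 i1 (q + t • v) = RR i0 i1 q +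
      t * ∑ i ∈ (Finset.univ.erase i0).erase i1, Bc q v i + t ^ 2 * RR i0 i1 v := by
    unfold RR
    rw [Finset.mul_sum, Finset.mul_sum, ← Finset.sum_add_distrib, ← Finset.sum_add_distrib]
    refine Finset.sum_congr rfl fun i _ => ?_
    rw [hc, sq_line]
    rfl
  unfold rho
  rw [hR, hc, hc, show ‖q i1 + t • v i1‖ ^ 4 = (‖q i1 + t • v i1‖ ^ 2) ^ 2 by ring, sq_line,
    sq_line]
  unfold A1 Bc
  ring

lemma deriv_poly (c0 c1 c2 c3 c4 : ℝ) :
    deriv (fun t : ℝ => c0 + t * c1 + t ^ 2 * c2 + t ^ 3 * c3 + t ^ 4 * c4) =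
      fun t => c1 + 2 * t * c2 + 3 * t ^ 2 * c3 + 4 * t ^ 3 * c4 := by
  funext t
  have h : HasDerivAt (fun t : ℝ => c0 + t * c1 + t ^ 2 * c2 + t ^ 3 * c3 + t ^ 4 * c4)
      (0 + 1 * c1 + ((2 : ℕ) * t ^ (2 - 1) * 1) * c2 + ((3 : ℕ) * t ^ (3 - 1) * 1) * c3 +
        ((4 : ℕ) * t ^ (4 - 1) * 1) * c4) t := by
    exact (((((hasDerivAt_const t c0).add ((hasDerivAt_id t).mul_const c1)).add
      (((hasDerivAt_id t).pow 2).mul_const c2)).add
      (((hasDerivAt_id t).pow 3).mul_const c3)).add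
      (((hasDerivAt_id t).pow 4).mul_const c4))
  rw [h.deriv]
  norm_num

lemma deriv_poly2 (c0 c1 c2 c3 c4 : ℝ) :
    deriv (deriv (fun t : ℝ => c0 + t * c1 + t ^ 2 * c2 + t ^ 3 * c3 + t ^ 4 * c4)) 0 = 2 * c2 := by
  rw [deriv_poly]
  have e : (fun t : ℝ => c1 + 2 * t * c2 + 3 * t ^ 2 * c3 + 4 * t ^ 3 * c4) =
      fun t : ℝ => c1 + t * (2 * c2) + t ^ 2 * (3 * c3) + t ^ 3 * (4 * c4) + t ^ 4 * 0 := by
    funext t
    ring
  rw [e, deriv_poly]
  norm_num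

lemma hess_rho (q v : EuclideanSpace ℂ (Fin n)) : hess (rho i0 i1) q v =
    2 * (‖v i0‖ ^ 2 + RR i0 i1 v + Bc q v i1 ^ 2 + 2 * ‖q i1‖ ^ 2 * ‖v i1‖ ^ 2) := by
  unfold hess
  simp only [rho_line]
  exact deriv_poly2 _ _ _ _ _

lemma fderiv_line {r : EuclideanSpace ℂ (Fin n) → ℝ} {q : EuclideanSpace ℂ (Fin n)}
    (h : DifferentiableAt ℝ r q) (v : EuclideanSpace ℂ (Fin n)) :
    HasDerivAt (fun t : ℝ => r (q + t • v)) (fderiv ℝ r q v) 0 := by
  have h1 : HasDerivAt (fun t : ℝ => q + t • v) v 0 := by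
    have := ((hasDerivAt_id (0 : ℝ)).smul_const v).const_add q
    simpa using this
  have h2 : HasFDerivAt r (fderiv ℝ r q) (q + (0 : ℝ) • v) := by
    rw [zero_smul, add_zero]
    exact h.hasFDerivAt
  exact h2.comp_hasDerivAt (0 : ℝ) h1

lemma fderiv_rho (q v : EuclideanSpace ℂ (Fin n)) :
    fderiv ℝ (rho i0 i1) q v = A1 i0 i1 q v + 2 * ‖q i1‖ ^ 2 * Bc q v i1 := by
  have h1 := fderiv_line (r := rho i0 i1) (q := q)
    ((rho_contDiff.differentiable (by simp)).differentiableAt) v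
  have h2 := h1.deriv
  simp only [rho_line] at h2
  rw [deriv_poly] at h2
  rw [← h2]
  norm_num

lemma Bc_self (q : EuclideanSpace ℂ (Fin n)) (i : Fin n) : Bc q q i = 2 * ‖q i‖ ^ 2 := by
  unfold Bc
  rw [Complex.mul_conj, Complex.ofReal_re, Complex.sq_norm]

lemma rho_grad (q : EuclideanSpace ℂ (Fin n)) (h : rho i0 i1 q = 0) :
    fderiv ℝ (rho i0 i1) q ≠ 0 := by
  intro h0
  have h1 := fderiv_rho (i0 := i0) (i1 := i1) q q
  rw [h0] at h1
  have h2 : A1 i0 i1 q q = 2 * (‖q i0‖ ^ 2 + RR i0 i1 q) := by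
    unfold A1 RR
    simp only [Bc_self]
    rw [← Finset.mul_sum]
    ring
  rw [h2, Bc_self] at h1
  have h3 : (0 : EuclideanSpace ℂ (Fin n) →L[ℝ] ℝ) q = 0 := rfl
  rw [h3] at h1
  unfold rho at h
  have h4 : 0 ≤ ‖q i1‖ ^ 4 := by positivity
  nlinarith

lemma egg_isOpen : IsOpen (egg i0 i1) := isOpen_lt rho_cont continuous_const

lemma egg_convex : Convex ℝ (egg i0 i1) := by
  have h1 : ∀ (i : Fin n) (k : ℕ), ConvexOn ℝ univ
      fun z : EuclideanSpace ℂ (Fin n) => ‖z i‖ ^ k := by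
    intro i k
    have h2 : ConvexOn ℝ univ fun z : EuclideanSpace ℂ (Fin n) => ‖z i‖ := by
      refine ⟨convex_univ, fun x _ y _ a b ha hb hab => ?_⟩
      calc ‖(a • x + b • y) i‖ = ‖a • x i + b • y i‖ := rfl
        _ ≤ ‖a • x i‖ + ‖b • y i‖ := norm_add_le _ _
        _ = a • ‖x i‖ + b • ‖y i‖ := by
            rw [norm_smul, norm_smul, Real.norm_of_nonneg ha, Real.norm_of_nonneg hb]
            rfl
    exact h2.pow (fun x _ => norm_nonneg _) k
  have h3 : ConvexOn ℝ univ (rho i0 i1) := by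
    have h4 : ConvexOn ℝ univ (RR i0 i1) := by
      unfold RR
      refine ⟨convex_univ, fun x _ y _ a b ha hb hab => ?_⟩
      rw [Finset.smul_sum, Finset.smul_sum, ← Finset.sum_add_distrib]
      exact Finset.sum_le_sum fun i _ => (h1 i 2).2 (mem_univ x) (mem_univ y) ha hb hab
    have h5 : ConvexOn ℝ univ fun _ : EuclideanSpace ℂ (Fin n) => (-1 : ℝ) :=
      convexOn_const _ convex_univ
    exact (((h1 i0 2).add h4).add (h1 i1 4)).add h5
  have := h3.convex_lt 0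
  simpa [egg] using this

lemma egg_bdd (h01 : i0 ≠ i1) : Bornology.IsBounded (egg i0 i1) := by
  refine (isBounded_iff_subset_closedBall (0 : EuclideanSpace ℂ (Fin n))).2 ⟨2, fun z hz => ?_⟩
  rw [mem_closedBall_zero_iff]
  have h1 := norm_split h01 z
  have h2 : rho i0 i1 z < 0 := hz
  unfold rho at h2
  have h3 : ‖z i1‖ ^ 4 = (‖z i1‖ ^ 2) ^ 2 := by ring
  rw [h3] at h2
  have h4 : ‖z‖ ^ 2 ≤ 2 ^ 2 := by nlinarith [sq_nonneg (‖z i1‖ ^ 2 - 1)]
  exact le_of_sq_le_sq h4 (by norm_num)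

lemma egg_dom (h01 : i0 ≠ i1) : IsBddDomain (egg i0 i1) := by
  refine ⟨egg_isOpen, ⟨⟨0, ?_⟩, egg_convex.isPreconnected⟩, egg_bdd h01⟩
  change rho i0 i1 0 < 0
  simp [rho, RR]

lemma frontier_rho {q : EuclideanSpace ℂ (Fin n)} (hq : q ∈ frontier (egg i0 i1)) :
    rho i0 i1 q = 0 := by
  rw [egg_isOpen.frontier_eq] at hq
  have h1 : q ∈ {z | rho i0 i1 z ≤ 0} := by
    have hc : IsClosed {z : EuclideanSpace ℂ (Fin n) | rho i0 i1 z ≤ 0} :=
      isClosed_le rho_cont continuous_const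
    have hsub : egg i0 i1 ⊆ {z | rho i0 i1 z ≤ 0} := fun z hz => le_of_lt (show rho i0 i1 z < 0 from hz)
    exact closure_minimal hsub hc hq.1
  have h2 : ¬ rho i0 i1 q < 0 := hq.2
  have h3 : rho i0 i1 q ≤ 0 := h1
  linarith

lemma egg_locDef : LocDef (egg i0 i1) univ (rho i0 i1) :=
  ⟨isOpen_univ, rho_contDiff.contDiffOn, by ext z; simp [egg], fun z _ h => rho_grad z h⟩

lemma pp_coord (h01 : i0 ≠ i1) : (pp i0 i1) i0 = 1 ∧ (pp i0 i1) i1 = 0 ∧
    ∀ i ∈ (Finset.univ.erase i0).erase i1, (pp i0 i1) i = 0 := by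
  refine ⟨mk_i0 _ _ _ _, mk_i1 h01 _ _ _ _, fun i hi => ?_⟩
  rw [Finset.mem_erase, Finset.mem_erase] at hi
  unfold pp
  rw [mk_apply, if_neg hi.2.1, if_neg hi.1, zero_mul]

lemma rho_pp (h01 : i0 ≠ i1) : rho i0 i1 (pp i0 i1) = 0 := by
  obtain ⟨h1, h2, h3⟩ := pp_coord h01
  have h4 : RR i0 i1 (pp i0 i1) = 0 := by
    unfold RR
    refine Finset.sum_eq_zero fun i hi => ?_
    rw [h3 i hi]
    simp
  unfold rho
  rw [h1, h2, h4]
  norm_num

lemma pp_frontier (h01 : i0 ≠ i1) [NeZero n] : pp i0 i1 ∈ frontier (egg i0 i1) := by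
  rw [egg_isOpen.frontier_eq]
  obtain ⟨z, h1, h2, -⟩ := exists_seq h01
  refine ⟨mem_closure_of_tendsto h2 (Eventually.of_forall h1), ?_⟩
  intro h3
  have h4 : rho i0 i1 (pp i0 i1) < 0 := h3
  rw [rho_pp h01] at h4
  exact lt_irrefl _ h4

lemma egg_psc (h01 : i0 ≠ i1) : LeviPscNear (egg i0 i1) (pp i0 i1) := by
  refine ⟨univ, rho i0 i1, egg_locDef, mem_univ _, rho_pp h01, fun q _ _ v _ => ?_⟩
  unfold levi
  rw [hess_rho, hess_rho]
  have h1 := RR_nonneg (i0 := i0) (i1 := i1) v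
  have h2 := RR_nonneg (i0 := i0) (i1 := i1) (Complex.I • v)
  positivity

lemma egg_rank (h01 : i0 ≠ i1) : LeviRank (egg i0 i1) (pp i0 i1) (n - 2) := by
  obtain ⟨p1, p2, p3⟩ := pp_coord h01
  let T : EuclideanSpace ℂ (Fin n) →ₗ[ℂ] ℂ × ℂ :=
    { toFun := fun z => (z i0, z i1)
      map_add' := fun _ _ => rfl
      map_smul' := fun _ _ => rfl }
  refine ⟨univ, rho i0 i1, egg_locDef, mem_univ _, rho_pp h01, LinearMap.ker T, ?_, ?_⟩
  · have h1 := LinearMap.finrank_range_add_finrank_ker T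
    have h2 : Module.finrank ℂ (LinearMap.range T) ≤ Module.finrank ℂ (ℂ × ℂ) :=
      Submodule.finrank_le _
    rw [Module.finrank_prod, Module.finrank_self] at h2
    rw [finrank_euclideanSpace_fin] at h1
    omega
  · intro v hv hv0
    have hT : (v i0, v i1) = (0 : ℂ × ℂ) := hv
    have v0 : v i0 = 0 := congrArg Prod.fst hT
    have v1 : v i1 = 0 := congrArg Prod.snd hT
    have hBi : ∀ (c : ℂ) (i : Fin n), Bc (pp i0 i1) (c • v) i = 0 := by
      intro c i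
      unfold Bc
      have hcv : (c • v) i = c * v i := rfl
      by_cases h0 : i = i0
      · rw [hcv, h0, v0]
        simp
      · by_cases h1 : i = i1
        · rw [hcv, h1, v1]
          simp
        · rw [p3 i (by simp [h0, h1])]
          simp
    have hA : ∀ c : ℂ, fderiv ℝ (rho i0 i1) (pp i0 i1) (c • v) = 0 := by
      intro c
      rw [fderiv_rho]
      unfold A1
      simp [hBi]
    have hH : ∀ c : ℂ, ‖c‖ = 1 → hess (rho i0 i1) (pp i0 i1) (c • v) = 2 * ‖v‖ ^ 2 := by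
      intro c hc
      rw [hess_rho, hBi, p2]
      have e1 : ‖v‖ ^ 2 = ‖c • v‖ ^ 2 := by rw [norm_smul, hc, one_mul]
      rw [e1, norm_split h01]
      have e0 : (c • v) i0 = 0 := by
        change c * v i0 = 0
        rw [v0, mul_zero]
      have e2 : (c • v) i1 = 0 := by
        change c * v i1 = 0
        rw [v1, mul_zero]
      rw [e0, e2]
      simp
    have hI := hH Complex.I (by simp)
    have h1 := hH 1 (by simp)
    have a1 := hA 1
    rw [one_smul] at h1 a1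
    refine ⟨⟨a1, hA Complex.I⟩, ?_⟩
    unfold levi
    rw [hI, h1]
    have : 0 < ‖v‖ := norm_pos_iff.2 hv0
    positivity

end N298.SQ
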