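import Pool.Agent.N298.SQ.Defs

/-!
# The egg domain and its automorphisms; ball automorphisms
-/

set_option autoImplicit false

namespace N298.SQ

open Set Metric

variable {n : ℕ} {i0 i1 : Fin n}

/-- `∑_{i ≠ i0, i1} |z_i|²` -/
noncomputable def RR (i0 i1 : Fin n) (z : EuclideanSpace ℂ (Fin n)) : ℝ :=
  ∑ i ∈ (Finset.univ.erase i0).erase i1, ‖z i‖ ^ 2

/-- the vector with coordinates `a` at `i0`, `b` at `i1` and `c z_i` at the other `i` -/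
noncomputable def mk (i0 i1 : Fin n) (a b c : ℂ) (z : EuclideanSpace ℂ (Fin n)) :
    EuclideanSpace ℂ (Fin n) :=
  WithLp.toLp 2 (fun i => if i = i0 then a else if i = i1 then b else c * z i)

lemma mk_apply (a b c : ℂ) (z : EuclideanSpace ℂ (Fin n)) (i : Fin n) :
    mk i0 i1 a b c z i = if i = i0 then a else if i = i1 then b else c * z i := rfl

lemma mk_i0 (a b c : ℂ) (z : EuclideanSpace ℂ (Fin n)) : mk i0 i1 a b c z i0 = a := by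
  simp [mk_apply]

lemma mk_i1 (h : i0 ≠ i1) (a b c : ℂ) (z : EuclideanSpace ℂ (Fin n)) :
    mk i0 i1 a b c z i1 = b := by
  simp [mk_apply, h.symm]

lemma mk_mk (a b c a' b' c' : ℂ) (z : EuclideanSpace ℂ (Fin n)) :
    mk i0 i1 a b c (mk i0 i1 a' b' c' z) = mk i0 i1 a b (c * c') z := by
  ext i
  simp only [mk_apply]
  split_ifs <;> ring

lemma mk_self (z : EuclideanSpace ℂ (Fin n)) : mk i0 i1 (z i0) (z i1) 1 z = z := by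
  ext i
  simp only [mk_apply]
  split_ifs with h1 h2
  · rw [h1]
  · rw [h2]
  · ring

lemma RR_nonneg (z : EuclideanSpace ℂ (Fin n)) : 0 ≤ RR i0 i1 z :=
  Finset.sum_nonneg fun i _ => by positivity

lemma RR_mk (a b c : ℂ) (z : EuclideanSpace ℂ (Fin n)) :
    RR i0 i1 (mk i0 i1 a b c z) = ‖c‖ ^ 2 * RR i0 i1 z := by
  unfold RR
  rw [Finset.mul_sum]
  refine Finset.sum_congr rfl fun i hi => ?_
  rw [Finset.mem_erase, Finset.mem_erase] at hi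
  rw [mk_apply, if_neg hi.2.1, if_neg hi.1, norm_mul, mul_pow]

lemma norm_split (h : i0 ≠ i1) (z : EuclideanSpace ℂ (Fin n)) :
    ‖z‖ ^ 2 = ‖z i0‖ ^ 2 + ‖z i1‖ ^ 2 + RR i0 i1 z := by
  rw [EuclideanSpace.norm_sq_eq, RR, ← Finset.add_sum_erase _ _ (Finset.mem_univ i0),
    ← Finset.add_sum_erase (Finset.univ.erase i0) (fun i => ‖z i‖ ^ 2) (a := i1)
      (Finset.mem_erase.mpr ⟨h.symm, Finset.mem_univ _⟩)]
  ring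

/-- the defining function of the egg -/
noncomputable def rho (i0 i1 : Fin n) (z : EuclideanSpace ℂ (Fin n)) : ℝ :=
  ‖z i0‖ ^ 2 + RR i0 i1 z + ‖z i1‖ ^ 4 - 1

/-- the egg domain -/
def egg (i0 i1 : Fin n) : Set (EuclideanSpace ℂ (Fin n)) := {z | rho i0 i1 z < 0}

lemma egg_i0 {z : EuclideanSpace ℂ (Fin n)} (hz : z ∈ egg i0 i1) : ‖z i0‖ < 1 := by
  have h : rho i0 i1 z < 0 := hz
  unfold rho at h
  have h1 := RR_nonneg (i0 := i0) (i1 := i1) z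
  have h2 : 0 ≤ ‖z i1‖ ^ 4 := by positivity
  have h3 := norm_nonneg (z i0)
  nlinarith

lemma re_pos {a : ℝ} (ha : |a| < 1) {w : ℂ} (hw : ‖w‖ < 1) : 0 < (1 - (a : ℂ) * w).re := by
  have h1 : ((a : ℂ) * w).re ≤ ‖(a : ℂ) * w‖ := Complex.re_le_norm _
  rw [norm_mul, Complex.norm_real, Real.norm_eq_abs] at h1
  have h2 : |a| * ‖w‖ < 1 := by
    have := norm_nonneg w
    have := abs_nonneg a
    nlinarith
  rw [Complex.sub_re, Complex.one_re]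
  linarith

lemma ne_zero_of {a : ℝ} (ha : |a| < 1) {w : ℂ} (hw : ‖w‖ < 1) : (1 - (a : ℂ) * w) ≠ 0 := by
  intro h
  have := re_pos ha hw
  rw [h] at this
  simp at this

/-- Moebius identity -/
lemma moeb_norm {a : ℝ} (w : ℂ) (R : ℝ) (hU : (1 - (a : ℂ) * w) ≠ 0) :
    1 - ‖(w - a) / (1 - a * w)‖ ^ 2 - (1 - a ^ 2) / ‖1 - (a : ℂ) * w‖ ^ 2 * R =
      (1 - a ^ 2) * (1 - ‖w‖ ^ 2 - R) / ‖1 - (a : ℂ) * w‖ ^ 2 := by
  have hU2 : ‖1 - (a : ℂ) * w‖ ^ 2 ≠ 0 := pow_ne_zero 2 (norm_ne_zero_iff.2 hU)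
  rw [norm_div, div_pow]
  have e1 : ‖1 - (a : ℂ) * w‖ ^ 2 = (1 - a * w.re) ^ 2 + (a * w.im) ^ 2 := by
    rw [Complex.sq_norm, Complex.normSq_apply]
    simp
    ring
  have e2 : ‖w - (a : ℂ)‖ ^ 2 = (w.re - a) ^ 2 + w.im ^ 2 := by
    rw [Complex.sq_norm, Complex.normSq_apply]
    simp
    ring
  have e3 : ‖w‖ ^ 2 = w.re ^ 2 + w.im ^ 2 := by
    rw [Complex.sq_norm, Complex.normSq_apply]
    ring
  rw [e2, e3]
  generalize ‖1 - (a : ℂ) * w‖ ^ 2 = N at hU2 e1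
  field_simp
  rw [e1]
  ring

lemma moeb_inv {a : ℝ} (ha : |a| < 1) {w : ℂ} (hU : (1 - (a : ℂ) * w) ≠ 0) :
    1 - ((-a : ℝ) : ℂ) * ((w - a) / (1 - a * w)) = ((1 - a ^ 2 : ℝ) : ℂ) / (1 - a * w) ∧
    ((w - a) / (1 - a * w) - ((-a : ℝ) : ℂ)) /
      (1 - ((-a : ℝ) : ℂ) * ((w - a) / (1 - a * w))) = w := by
  have h1 : 1 - ((-a : ℝ) : ℂ) * ((w - a) / (1 - a * w)) = ((1 - a ^ 2 : ℝ) : ℂ) / (1 - a * w) := by
    push_cast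
    field_simp
    ring
  refine ⟨h1, ?_⟩
  rw [h1]
  have h2 : (1 - a ^ 2 : ℝ) ≠ 0 := by
    have := abs_lt.1 ha
    nlinarith
  have h3 : ((1 - a ^ 2 : ℝ) : ℂ) ≠ 0 := by exact_mod_cast h2
  rw [div_div_eq_mul_div, div_eq_iff h3]
  have hU' : 1 - w * (a : ℂ) ≠ 0 := by rwa [mul_comm]
  push_cast
  rw [sub_neg_eq_add, add_mul, div_mul_cancel₀ _ hU]
  ring

/-- the square root -/
noncomputable def sq (U : ℂ) : ℂ := U ^ (2⁻¹ : ℂ)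

lemma sq_sq (U : ℂ) : sq U ^ 2 = U := Complex.cpow_ofNat_inv_pow U 2

lemma sq_re {U : ℂ} (h : 0 < U.re) : 0 < (sq U).re := by
  unfold sq
  rw [Complex.cpow_inv_two_re]
  apply Real.sqrt_pos.2
  have := Complex.re_le_norm U
  linarith

lemma sq_ne {U : ℂ} (h : 0 < U.re) : sq U ≠ 0 := by
  intro h0
  have := sq_re h
  rw [h0] at this
  simp at this

lemma sq_div {U : ℂ} (h : 0 < U.re) {s : ℝ} (hs : 0 < s) : sq (((s ^ 2 : ℝ) : ℂ) / U) = s / sq U := by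
  have h1 : ((s ^ 2 : ℝ) : ℂ) / U = ((s : ℂ) / sq U) ^ 2 := by
    rw [div_pow, sq_sq]
    push_cast
    rfl
  rw [h1]
  apply Complex.sq_cpow_two_inv
  have h2 := sq_re h
  have h3 := sq_ne h
  rw [Complex.div_re]
  have h4 : 0 < Complex.normSq (sq U) := Complex.normSq_pos.2 h3
  simp only [Complex.ofReal_re, Complex.ofReal_im, zero_mul, zero_div, add_zero]
  positivity

/-- automorphism of the egg -/
noncomputable def Phi (i0 i1 : Fin n) (a : ℝ) (z : EuclideanSpace ℂ (Fin n)) :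
    EuclideanSpace ℂ (Fin n) :=
  mk i0 i1 ((z i0 - a) / (1 - a * z i0)) ((√√(1 - a ^ 2) : ℝ) * z i1 / sq (1 - a * z i0))
    ((√(1 - a ^ 2) : ℝ) / (1 - a * z i0)) z

lemma one_sub_pos {a : ℝ} (ha : |a| < 1) : 0 < 1 - a ^ 2 := by
  have := abs_lt.1 ha
  nlinarith

lemma Phi_rho (h01 : i0 ≠ i1) {a : ℝ} (ha : |a| < 1) {z : EuclideanSpace ℂ (Fin n)}
    (hz : ‖z i0‖ < 1) : rho i0 i1 (Phi i0 i1 a z) =
      (1 - a ^ 2) * rho i0 i1 z / ‖1 - (a : ℂ) * z i0‖ ^ 2 := by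
  have hU := ne_zero_of ha hz
  have hre := re_pos ha hz
  have h1 := one_sub_pos ha
  have h2 := Real.sqrt_pos.2 h1
  have hn : ‖1 - (a : ℂ) * z i0‖ ≠ 0 := norm_ne_zero_iff.2 hU
  unfold rho Phi
  rw [RR_mk, mk_i0, mk_i1 h01]
  have e1 := moeb_norm (a := a) (z i0) (RR i0 i1 z) hU
  have e2 : ‖((√(1 - a ^ 2) : ℝ) : ℂ) / (1 - a * z i0)‖ ^ 2 =
      (1 - a ^ 2) / ‖1 - (a : ℂ) * z i0‖ ^ 2 := by
    rw [norm_div, div_pow, Complex.norm_real, Real.norm_eq_abs, sq_abs, Real.sq_sqrt h1.le]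
  have e3 : ‖((√√(1 - a ^ 2) : ℝ) : ℂ) * z i1 / sq (1 - a * z i0)‖ ^ 4 =
      (1 - a ^ 2) * ‖z i1‖ ^ 4 / ‖1 - (a : ℂ) * z i0‖ ^ 2 := by
    rw [norm_div, norm_mul, div_pow, mul_pow, Complex.norm_real, Real.norm_eq_abs,
      show |√√(1 - a ^ 2)| ^ 4 = (|√√(1 - a ^ 2)| ^ 2) ^ 2 by ring, sq_abs, Real.sq_sqrt h2.le,
      Real.sq_sqrt h1.le]
    congr 1
    have : ‖sq (1 - (a : ℂ) * z i0)‖ ^ 2 = ‖1 - (a : ℂ) * z i0‖ := by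
      rw [← norm_pow, sq_sq]
    rw [← this]
    ring
  rw [e2, e3]
  have e4 : ‖(z i0 - a) / (1 - a * z i0)‖ ^ 2 + (1 - a ^ 2) / ‖1 - (a : ℂ) * z i0‖ ^ 2 * RR i0 i1 z +
      (1 - a ^ 2) * ‖z i1‖ ^ 4 / ‖1 - (a : ℂ) * z i0‖ ^ 2 - 1 =
      (1 - a ^ 2) * ‖z i1‖ ^ 4 / ‖1 - (a : ℂ) * z i0‖ ^ 2 -
      (1 - a ^ 2) * (1 - ‖z i0‖ ^ 2 - RR i0 i1 z) / ‖1 - (a : ℂ) * z i0‖ ^ 2 := by
    linarith
  rw [e4]
  field_simp
  ring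

lemma Phi_maps (h01 : i0 ≠ i1) {a : ℝ} (ha : |a| < 1) :
    MapsTo (Phi i0 i1 a) (egg i0 i1) (egg i0 i1) := by
  intro z hz
  have h1 := Phi_rho h01 ha (egg_i0 hz)
  have h2 : rho i0 i1 z < 0 := hz
  change rho i0 i1 (Phi i0 i1 a z) < 0
  rw [h1]
  have h3 := one_sub_pos ha
  have h4 : 0 < ‖1 - (a : ℂ) * z i0‖ := norm_pos_iff.2 (ne_zero_of ha (egg_i0 hz))
  apply div_neg_of_neg_of_pos
  · nlinarith
  · positivity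

lemma Phi_inv (h01 : i0 ≠ i1) {a : ℝ} (ha : |a| < 1) {z : EuclideanSpace ℂ (Fin n)}
    (hz : ‖z i0‖ < 1) : Phi i0 i1 (-a) (Phi i0 i1 a z) = z := by
  have hU := ne_zero_of ha hz
  have hre := re_pos ha hz
  have h1 := one_sub_pos ha
  have h2 := Real.sqrt_pos.2 h1
  obtain ⟨m1, m2⟩ := moeb_inv ha hU
  have hq : √√(1 - a ^ 2) * √√(1 - a ^ 2) = √(1 - a ^ 2) := Real.mul_self_sqrt h2.le
  have hs : √(1 - a ^ 2) * √(1 - a ^ 2) = 1 - a ^ 2 := Real.mul_self_sqrt h1.le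
  have hsC : ((√(1 - a ^ 2) : ℝ) : ℂ) * ((√(1 - a ^ 2) : ℝ) : ℂ) = ((1 - a ^ 2 : ℝ) : ℂ) := by
    rw [← Complex.ofReal_mul, hs]
  have hqC : ((√√(1 - a ^ 2) : ℝ) : ℂ) * ((√√(1 - a ^ 2) : ℝ) : ℂ) = ((√(1 - a ^ 2) : ℝ) : ℂ) := by
    rw [← Complex.ofReal_mul, hq]
  have h3 : ((1 - a ^ 2 : ℝ) : ℂ) ≠ 0 := by exact_mod_cast h1.ne'
  have h4 : ((√(1 - a ^ 2) : ℝ) : ℂ) ≠ 0 := by exact_mod_cast h2.ne'
  have hsq : sq (((1 - a ^ 2 : ℝ) : ℂ) / (1 - a * z i0)) =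
      (√(1 - a ^ 2) : ℝ) / sq (1 - a * z i0) := by
    have := sq_div hre h2
    rw [Real.sq_sqrt h1.le] at this
    exact this
  unfold Phi
  rw [mk_mk, mk_i0, mk_i1 h01, m2, m1, neg_sq, hsq]
  have e1 : ((√√(1 - a ^ 2) : ℝ) : ℂ) * (((√√(1 - a ^ 2) : ℝ) : ℂ) * z i1 / sq (1 - a * z i0)) /
      (((√(1 - a ^ 2) : ℝ) : ℂ) / sq (1 - a * z i0)) = z i1 := by
    rw [← mul_div_assoc, ← mul_assoc, hqC]
    have := sq_ne hre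
    field_simp
  have e2 : ((√(1 - a ^ 2) : ℝ) : ℂ) / (((1 - a ^ 2 : ℝ) : ℂ) / (1 - a * z i0)) *
      (((√(1 - a ^ 2) : ℝ) : ℂ) / (1 - a * z i0)) = 1 := by
    rw [← hsC]
    field_simp
  rw [e1, e2]
  exact mk_self z

/-- automorphism of the ball -/
noncomputable def Psi (i0 i1 : Fin n) (t : ℝ) (z : EuclideanSpace ℂ (Fin n)) :
    EuclideanSpace ℂ (Fin n) :=
  mk i0 i1 ((√(1 - t ^ 2) : ℝ) * z i0 / (1 - t * z i1)) ((z i1 - t) / (1 - t * z i1))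
    ((√(1 - t ^ 2) : ℝ) / (1 - t * z i1)) z

lemma Psi_norm (h01 : i0 ≠ i1) {t : ℝ} (ht : |t| < 1) {z : EuclideanSpace ℂ (Fin n)}
    (hz : ‖z i1‖ < 1) : 1 - ‖Psi i0 i1 t z‖ ^ 2 =
      (1 - t ^ 2) * (1 - ‖z‖ ^ 2) / ‖1 - (t : ℂ) * z i1‖ ^ 2 := by
  have hU := ne_zero_of ht hz
  have h1 := one_sub_pos ht
  have hn : ‖1 - (t : ℂ) * z i1‖ ≠ 0 := norm_ne_zero_iff.2 hU
  have e1 := moeb_norm (a := t) (z i1) (‖z i0‖ ^ 2 + RR i0 i1 z) hU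
  rw [norm_split h01, norm_split h01 z]
  unfold Psi
  rw [RR_mk, mk_i0, mk_i1 h01]
  have e2 : ‖((√(1 - t ^ 2) : ℝ) : ℂ) / (1 - t * z i1)‖ ^ 2 =
      (1 - t ^ 2) / ‖1 - (t : ℂ) * z i1‖ ^ 2 := by
    rw [norm_div, div_pow, Complex.norm_real, Real.norm_eq_abs, sq_abs, Real.sq_sqrt h1.le]
  have e3 : ‖((√(1 - t ^ 2) : ℝ) : ℂ) * z i0 / (1 - t * z i1)‖ ^ 2 =
      (1 - t ^ 2) / ‖1 - (t : ℂ) * z i1‖ ^ 2 * ‖z i0‖ ^ 2 := by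
    rw [norm_div, norm_mul, div_pow, mul_pow, Complex.norm_real, Real.norm_eq_abs, sq_abs,
      Real.sq_sqrt h1.le]
    ring
  rw [e2, e3]
  have e4 : (1 - t ^ 2) * (1 - (‖z i0‖ ^ 2 + ‖z i1‖ ^ 2 + RR i0 i1 z)) / ‖1 - (t : ℂ) * z i1‖ ^ 2 =
      (1 - t ^ 2) * (1 - ‖z i1‖ ^ 2 - (‖z i0‖ ^ 2 + RR i0 i1 z)) / ‖1 - (t : ℂ) * z i1‖ ^ 2 := by
    congr 2
    ring
  rw [e4, ← e1]
  ring

lemma ball_i1 {z : EuclideanSpace ℂ (Fin n)} (h : ‖z‖ < 1) (i : Fin n) : ‖z i‖ < 1 :=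
  lt_of_le_of_lt (PiLp.norm_apply_le z i) h

lemma Psi_maps (h01 : i0 ≠ i1) {t : ℝ} (ht : |t| < 1) {z : EuclideanSpace ℂ (Fin n)}
    (hz : ‖z‖ < 1) : ‖Psi i0 i1 t z‖ < 1 := by
  have h1 := Psi_norm h01 ht (ball_i1 hz i1)
  have h3 := one_sub_pos ht
  have h4 : 0 < ‖1 - (t : ℂ) * z i1‖ := norm_pos_iff.2 (ne_zero_of ht (ball_i1 hz i1))
  have h5 : 0 < (1 - t ^ 2) * (1 - ‖z‖ ^ 2) / ‖1 - (t : ℂ) * z i1‖ ^ 2 := by
    have : 0 < 1 - ‖z‖ ^ 2 := by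
      have := norm_nonneg z
      nlinarith
    positivity
  have h6 := norm_nonneg (Psi i0 i1 t z)
  nlinarith

lemma Psi_inv (h01 : i0 ≠ i1) {t : ℝ} (ht : |t| < 1) {z : EuclideanSpace ℂ (Fin n)}
    (hz : ‖z i1‖ < 1) : Psi i0 i1 (-t) (Psi i0 i1 t z) = z := by
  have hU := ne_zero_of ht hz
  have h1 := one_sub_pos ht
  have h2 := Real.sqrt_pos.2 h1
  obtain ⟨m1, m2⟩ := moeb_inv ht hU
  have hs : √(1 - t ^ 2) * √(1 - t ^ 2) = 1 - t ^ 2 := Real.mul_self_sqrt h1.le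
  have hsC : ((√(1 - t ^ 2) : ℝ) : ℂ) * ((√(1 - t ^ 2) : ℝ) : ℂ) = ((1 - t ^ 2 : ℝ) : ℂ) := by
    rw [← Complex.ofReal_mul, hs]
  have h3 : ((1 - t ^ 2 : ℝ) : ℂ) ≠ 0 := by exact_mod_cast h1.ne'
  have h4 : ((√(1 - t ^ 2) : ℝ) : ℂ) ≠ 0 := by exact_mod_cast h2.ne'
  unfold Psi
  rw [mk_mk, mk_i0, mk_i1 h01, m2, m1, neg_sq]
  have e1 : ((√(1 - t ^ 2) : ℝ) : ℂ) * (((√(1 - t ^ 2) : ℝ) : ℂ) * z i0 / (1 - t * z i1)) /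
      (((1 - t ^ 2 : ℝ) : ℂ) / (1 - t * z i1)) = z i0 := by
    rw [← mul_div_assoc, ← mul_assoc, hsC]
    field_simp
  have e2 : ((√(1 - t ^ 2) : ℝ) : ℂ) / (((1 - t ^ 2 : ℝ) : ℂ) / (1 - t * z i1)) *
      (((√(1 - t ^ 2) : ℝ) : ℂ) / (1 - t * z i1)) = 1 := by
    rw [← hsC]
    field_simp
  rw [e1, e2]
  exact mk_self z

end N298.SQ
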