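import Pool.Agent.N298.SQ.Maps

/-!
# Lower bound for the squeezing function of the egg
-/

set_option autoImplicit false

namespace N298.SQ

open Set Metric Filter Topology

variable {n : ℕ} {i0 i1 : Fin n}

lemma mk_diff {s : Set (EuclideanSpace ℂ (Fin n))} {f g c : EuclideanSpace ℂ (Fin n) → ℂ}
    (hf : DifferentiableOn ℂ f s) (hg : DifferentiableOn ℂ g s) (hc : DifferentiableOn ℂ c s) :
    DifferentiableOn ℂ (fun z => mk i0 i1 (f z) (g z) (c z) z) s := by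
  rw [differentiableOn_euclidean]
  intro i
  by_cases h0 : i = i0
  · simpa only [mk_apply, if_pos h0] using hf
  · by_cases h1 : i = i1
    · simpa only [mk_apply, if_neg h0, if_pos h1] using hg
    · simp only [mk_apply, if_neg h0, if_neg h1]
      have : Differentiable ℂ fun z : EuclideanSpace ℂ (Fin n) => z i := by fun_prop
      exact hc.mul this.differentiableOn

lemma coord_diff (i : Fin n) (s : Set (EuclideanSpace ℂ (Fin n))) :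
    DifferentiableOn ℂ (fun z : EuclideanSpace ℂ (Fin n) => z i) s := by
  have : Differentiable ℂ fun z : EuclideanSpace ℂ (Fin n) => z i := by fun_prop
  exact this.differentiableOn

lemma ddiv {s : Set (EuclideanSpace ℂ (Fin n))} {f g : EuclideanSpace ℂ (Fin n) → ℂ}
    (hf : DifferentiableOn ℂ f s) (hg : DifferentiableOn ℂ g s) (h : ∀ z ∈ s, g z ≠ 0) :
    DifferentiableOn ℂ (fun z => f z / g z) s := by
  simp only [div_eq_mul_inv]
  exact hf.mul (hg.inv h)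

lemma Phi_diff {a : ℝ} (ha : |a| < 1) : DifferentiableOn ℂ (Phi i0 i1 a) {z | ‖z i0‖ < 1} := by
  have hU : DifferentiableOn ℂ (fun z : EuclideanSpace ℂ (Fin n) => 1 - (a : ℂ) * z i0)
      {z | ‖z i0‖ < 1} := (differentiableOn_const _).sub ((coord_diff i0 _).const_mul _)
  have hne : ∀ z ∈ {z : EuclideanSpace ℂ (Fin n) | ‖z i0‖ < 1}, 1 - (a : ℂ) * z i0 ≠ 0 :=
    fun z hz => ne_zero_of ha hz
  have hsq : DifferentiableOn ℂ (fun z : EuclideanSpace ℂ (Fin n) => sq (1 - (a : ℂ) * z i0))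
      {z | ‖z i0‖ < 1} := by
    unfold sq
    refine hU.cpow (differentiableOn_const _) ?_
    intro z hz
    exact Or.inl (re_pos ha hz)
  refine mk_diff ?_ ?_ ?_
  · exact ddiv ((coord_diff i0 _).sub (differentiableOn_const _)) hU hne
  · exact ddiv ((coord_diff i1 _).const_mul _) hsq fun z hz => sq_ne (re_pos ha hz)
  · exact ddiv (differentiableOn_const _) hU hne

lemma Psi_diff {t : ℝ} (ht : |t| < 1) : DifferentiableOn ℂ (Psi i0 i1 t) {z | ‖z i1‖ < 1} := by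
  have hU : DifferentiableOn ℂ (fun z : EuclideanSpace ℂ (Fin n) => 1 - (t : ℂ) * z i1)
      {z | ‖z i1‖ < 1} := (differentiableOn_const _).sub ((coord_diff i1 _).const_mul _)
  have hne : ∀ z ∈ {z : EuclideanSpace ℂ (Fin n) | ‖z i1‖ < 1}, 1 - (t : ℂ) * z i1 ≠ 0 :=
    fun z hz => ne_zero_of ht hz
  refine mk_diff ?_ ?_ ?_
  · exact ddiv ((coord_diff i0 _).const_mul _) hU hne
  · exact ddiv ((coord_diff i1 _).sub (differentiableOn_const _)) hU hne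
  · exact ddiv (differentiableOn_const _) hU hne

/-- the linear map -/
noncomputable def LL (i0 i1 : Fin n) (c : ℝ) (z : EuclideanSpace ℂ (Fin n)) :
    EuclideanSpace ℂ (Fin n) := mk i0 i1 (c * z i0) (z i1) c z

lemma LL_diff (c : ℝ) (s : Set (EuclideanSpace ℂ (Fin n))) :
    DifferentiableOn ℂ (LL i0 i1 c) s :=
  mk_diff ((coord_diff i0 _).const_mul _) (coord_diff i1 _) (differentiableOn_const _)

lemma LL_LL (h01 : i0 ≠ i1) {c d : ℝ} (h : c * d = 1) (z : EuclideanSpace ℂ (Fin n)) :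
    LL i0 i1 c (LL i0 i1 d z) = z := by
  unfold LL
  rw [mk_mk, mk_i0, mk_i1 h01]
  have h2 : (c : ℂ) * d = 1 := by exact_mod_cast h
  rw [← mul_assoc, h2, one_mul]
  exact mk_self z

lemma LL_norm (h01 : i0 ≠ i1) (c : ℝ) (z : EuclideanSpace ℂ (Fin n)) :
    ‖LL i0 i1 c z‖ ^ 2 = c ^ 2 * (‖z i0‖ ^ 2 + RR i0 i1 z) + ‖z i1‖ ^ 2 := by
  rw [norm_split h01]
  unfold LL
  rw [RR_mk, mk_i0, mk_i1 h01, norm_mul, Complex.norm_real, Real.norm_eq_abs, mul_pow, sq_abs]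
  ring

lemma LL_maps (h01 : i0 ≠ i1) {z : EuclideanSpace ℂ (Fin n)} (hz : z ∈ egg i0 i1) :
    ‖LL i0 i1 (√2)⁻¹ z‖ < 1 := by
  have h1 := LL_norm h01 (√2)⁻¹ z
  have h2 : rho i0 i1 z < 0 := hz
  unfold rho at h2
  have h3 : ((√2)⁻¹ : ℝ) ^ 2 = 1 / 2 := by
    rw [inv_pow, Real.sq_sqrt (by norm_num)]
    norm_num
  rw [h3] at h1
  have h4 : ‖z i1‖ ^ 4 = (‖z i1‖ ^ 2) ^ 2 := by ring
  rw [h4] at h2
  have h5 : ‖LL i0 i1 (√2)⁻¹ z‖ ^ 2 < 1 := by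
    nlinarith [sq_nonneg (1 - ‖z i1‖ ^ 2)]
  have h6 := norm_nonneg (LL i0 i1 (√2)⁻¹ z)
  nlinarith

lemma LL_rho (h01 : i0 ≠ i1) (z : EuclideanSpace ℂ (Fin n)) :
    rho i0 i1 (LL i0 i1 (√2) z) = 2 * (‖z‖ ^ 2 - ‖z i1‖ ^ 2) + ‖z i1‖ ^ 4 - 1 := by
  rw [norm_split h01]
  unfold rho LL
  rw [RR_mk, mk_i0, mk_i1 h01, norm_mul, Complex.norm_real, Real.norm_eq_abs, mul_pow, sq_abs,
    Real.sq_sqrt (by norm_num)]
  ring

/-- the embedding -/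
noncomputable def FF (i0 i1 : Fin n) (a t : ℝ) (z : EuclideanSpace ℂ (Fin n)) :
    EuclideanSpace ℂ (Fin n) := Psi i0 i1 t (LL i0 i1 (√2)⁻¹ (Phi i0 i1 a z))

/-- the inverse of the embedding -/
noncomputable def GG (i0 i1 : Fin n) (a t : ℝ) (z : EuclideanSpace ℂ (Fin n)) :
    EuclideanSpace ℂ (Fin n) := Phi i0 i1 (-a) (LL i0 i1 (√2) (Psi i0 i1 (-t) z))

lemma sqrt2_mul : √2 * (√2)⁻¹ = 1 := mul_inv_cancel₀ (by positivity)

lemma FF_emb (h01 : i0 ≠ i1) {a t : ℝ} (ha : |a| < 1) (ht : |t| < 1) :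
    IsEmb (egg i0 i1) (FF i0 i1 a t) := by
  constructor
  · have h1 : DifferentiableOn ℂ (Phi i0 i1 a) (egg i0 i1) :=
      (Phi_diff ha).mono fun z hz => egg_i0 hz
    have h2 : DifferentiableOn ℂ (fun z => LL i0 i1 (√2)⁻¹ (Phi i0 i1 a z)) (egg i0 i1) :=
      (LL_diff _ univ).comp h1 (mapsTo_univ _ _)
    exact (Psi_diff ht).comp h2 fun z hz => ball_i1 (LL_maps h01 (Phi_maps h01 ha hz)) i1
  · intro z hz z' hz' h
    have key : ∀ z ∈ egg i0 i1, GG i0 i1 a t (FF i0 i1 a t z) = z := by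
      intro z hz
      unfold GG FF
      rw [Psi_inv h01 ht (ball_i1 (LL_maps h01 (Phi_maps h01 ha hz)) i1),
        LL_LL h01 sqrt2_mul, Phi_inv h01 ha (egg_i0 hz)]
    rw [← key z hz, ← key z' hz', h]
  · intro z hz
    rw [mem_ball_zero_iff]
    exact Psi_maps h01 ht (LL_maps h01 (Phi_maps h01 ha hz))

lemma FF_surj (h01 : i0 ≠ i1) {a t : ℝ} (ha : |a| < 1) (ht0 : 0 ≤ t) (ht1 : t < 1) {ρ : ℝ}
    (hρ : ρ ^ 2 ≤ 2 * t ^ 2 - 1) : ball 0 ρ ⊆ FF i0 i1 a t '' egg i0 i1 := by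
  have ht : |t| < 1 := by rwa [abs_of_nonneg ht0]
  have htn : |(-t)| < 1 := by rwa [abs_neg]
  have han : |(-a)| < 1 := by rwa [abs_neg]
  intro ξ hξ
  rw [mem_ball_zero_iff] at hξ
  have hρ0 : 0 < ρ := lt_of_le_of_lt (norm_nonneg _) hξ
  have hξ2 : ‖ξ‖ ^ 2 < 2 * t ^ 2 - 1 := by
    have := norm_nonneg ξ
    nlinarith
  have hξ1 : ‖ξ‖ < 1 := by
    have := norm_nonneg ξ
    nlinarith
  have hη1 := Psi_maps h01 htn hξ1
  have e1 : Psi i0 i1 t (Psi i0 i1 (-t) ξ) = ξ := by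
    have := Psi_inv h01 htn (ball_i1 hξ1 i1)
    rwa [neg_neg] at this
  set η := Psi i0 i1 (-t) ξ with hη
  have hegg : LL i0 i1 (√2) η ∈ egg i0 i1 := by
    change rho i0 i1 (LL i0 i1 (√2) η) < 0
    rw [LL_rho h01]
    by_contra hcon
    rw [not_lt] at hcon
    have h1 := Psi_norm h01 ht (ball_i1 hη1 i1)
    rw [e1] at h1
    have hx1 := ball_i1 hη1 i1
    have hx0 := norm_nonneg (η i1)
    have h2 : 1 - ‖η‖ ^ 2 ≤ (1 - ‖η i1‖ ^ 2) ^ 2 / 2 := by nlinarith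
    have h3 : 1 - ‖η i1‖ ≤ ‖1 - (t : ℂ) * η i1‖ := by
      have h4 : ‖(1 : ℂ)‖ - ‖(t : ℂ) * η i1‖ ≤ ‖1 - (t : ℂ) * η i1‖ := norm_sub_norm_le _ _
      rw [norm_one, norm_mul, Complex.norm_real, Real.norm_eq_abs, abs_of_nonneg ht0] at h4
      nlinarith
    have h4 : 0 < 1 - ‖η i1‖ := by linarith
    have h5 : 0 < 1 - t ^ 2 := one_sub_pos ht
    have h6 : 1 - ‖ξ‖ ^ 2 ≤ 2 * (1 - t ^ 2) := by
      have h10 : 0 < ‖1 - (t : ℂ) * η i1‖ := lt_of_lt_of_le h4 h3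
      rw [h1, div_le_iff₀ (by positivity)]
      have h7 : (1 - ‖η i1‖) ^ 2 ≤ ‖1 - (t : ℂ) * η i1‖ ^ 2 := by
        apply pow_le_pow_left₀ h4.le h3
      have h8 : (1 - ‖η i1‖ ^ 2) ^ 2 / 2 ≤ 2 * (1 - ‖η i1‖) ^ 2 := by
        have : (1 - ‖η i1‖ ^ 2) ^ 2 = (1 - ‖η i1‖) ^ 2 * (1 + ‖η i1‖) ^ 2 := by ring
        rw [this]
        have h9 : (1 + ‖η i1‖) ^ 2 ≤ 4 := by nlinarith
        nlinarith [sq_nonneg (1 - ‖η i1‖)]
      calc (1 - t ^ 2) * (1 - ‖η‖ ^ 2) ≤ (1 - t ^ 2) * (2 * (1 - ‖η i1‖) ^ 2) :=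
            mul_le_mul_of_nonneg_left (h2.trans h8) h5.le
        _ ≤ (1 - t ^ 2) * (2 * ‖1 - (t : ℂ) * η i1‖ ^ 2) := by
            apply mul_le_mul_of_nonneg_left _ h5.le
            linarith
        _ = _ := by ring
    linarith
  refine ⟨Phi i0 i1 (-a) (LL i0 i1 (√2) η), Phi_maps h01 han hegg, ?_⟩
  unfold FF
  have e2 := Phi_inv h01 han (egg_i0 hegg)
  rw [neg_neg] at e2
  rw [e2, LL_LL h01 (by rw [mul_comm]; exact sqrt2_mul), e1]

/-- the base points -/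
noncomputable def pt (i0 i1 : Fin n) (a t : ℝ) : EuclideanSpace ℂ (Fin n) :=
  mk i0 i1 (a : ℂ) (((√√(1 - a ^ 2) * t : ℝ)) : ℂ) 0 0

lemma sq_real {s : ℝ} (hs : 0 < s) : sq (((s ^ 2 : ℝ)) : ℂ) = s := by
  have : (((s ^ 2 : ℝ)) : ℂ) = ((s : ℂ)) ^ 2 := by push_cast; rfl
  rw [this]
  exact Complex.sq_cpow_two_inv (by simpa using hs)

lemma FF_pt (h01 : i0 ≠ i1) {a : ℝ} (t : ℝ) (ha : |a| < 1) : FF i0 i1 a t (pt i0 i1 a t) = 0 := by
  have h1 := one_sub_pos ha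
  have h2 := Real.sqrt_pos.2 h1
  have hq : √√(1 - a ^ 2) * √√(1 - a ^ 2) = √(1 - a ^ 2) := Real.mul_self_sqrt h2.le
  have hsq : sq (1 - (a : ℂ) * (a : ℂ)) = (√(1 - a ^ 2) : ℝ) := by
    have := sq_real h2
    rw [Real.sq_sqrt h1.le] at this
    rw [← this]
    congr 1
    push_cast
    ring
  have h4 : ((√(1 - a ^ 2) : ℝ) : ℂ) ≠ 0 := by exact_mod_cast h2.ne'
  have e1 : ((√√(1 - a ^ 2) : ℝ) : ℂ) * (((√√(1 - a ^ 2) * t : ℝ)) : ℂ) /
      ((√(1 - a ^ 2) : ℝ) : ℂ) = t := by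
    rw [← Complex.ofReal_mul, ← mul_assoc, hq, Complex.ofReal_mul, mul_div_cancel_left₀ _ h4]
  unfold FF Psi LL Phi pt
  simp only [mk_mk, mk_i0, mk_i1 h01, hsq, e1, sub_self, zero_div, mul_zero]
  ext i
  rw [mk_apply]
  split_ifs <;> simp

lemma pt_egg (h01 : i0 ≠ i1) {a t : ℝ} (ha : |a| < 1) (ht0 : 0 ≤ t) (ht1 : t < 1) :
    pt i0 i1 a t ∈ egg i0 i1 := by
  have h1 := one_sub_pos ha
  have h2 := Real.sqrt_pos.2 h1
  change rho i0 i1 (pt i0 i1 a t) < 0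
  unfold rho pt
  have hR0 : RR i0 i1 (mk i0 i1 (a : ℂ) (((√√(1 - a ^ 2) * t : ℝ)) : ℂ) 0 0) = 0 := by
    rw [RR_mk]
    simp
  rw [hR0, mk_i0, mk_i1 h01, Complex.norm_real, Complex.norm_real, Real.norm_eq_abs,
    Real.norm_eq_abs, sq_abs]
  have e : |√√(1 - a ^ 2) * t| ^ 4 = (1 - a ^ 2) * t ^ 4 := by
    rw [show |√√(1 - a ^ 2) * t| ^ 4 = (|√√(1 - a ^ 2) * t| ^ 2) ^ 2 by ring, sq_abs, mul_pow,
      Real.sq_sqrt h2.le, mul_pow, Real.sq_sqrt h1.le]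
    ring
  rw [e]
  have h3 : t ^ 4 < 1 := by
    have h4 : t ^ 2 < 1 := by nlinarith
    nlinarith [sq_nonneg t]
  nlinarith

lemma squeeze_le_one [NeZero n] (D : Set (EuclideanSpace ℂ (Fin n)))
    (z : EuclideanSpace ℂ (Fin n)) : ∀ r ∈ {r : ℝ | 0 < r ∧
      ∃ F : EuclideanSpace ℂ (Fin n) → EuclideanSpace ℂ (Fin n),
      IsEmb D F ∧ F z = 0 ∧ ball 0 r ⊆ F '' D}, r ≤ 1 := by
  rintro r ⟨hr, F, hF, -, hb⟩
  by_contra hcon
  rw [not_le] at hcon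
  have h1 : EuclideanSpace.single (0 : Fin n) (1 : ℂ) ∈ ball (0 : EuclideanSpace ℂ (Fin n)) r := by
    rw [mem_ball_zero_iff]
    simpa using hcon
  obtain ⟨x, hx, hx2⟩ := hb h1
  have h2 := hF.maps hx
  rw [hx2, mem_ball_zero_iff] at h2
  simp at h2

lemma squeeze_ge (h01 : i0 ≠ i1) [NeZero n] {a t : ℝ} (ha : |a| < 1) (ht0 : 0 ≤ t) (ht1 : t < 1)
    (ht2 : 0 < 2 * t ^ 2 - 1) :
    √(2 * t ^ 2 - 1) ≤ squeeze (egg i0 i1) (pt i0 i1 a t) ∧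
      squeeze (egg i0 i1) (pt i0 i1 a t) ≤ 1 := by
  have ht : |t| < 1 := by rwa [abs_of_nonneg ht0]
  have hmem : √(2 * t ^ 2 - 1) ∈ {r : ℝ | 0 < r ∧
      ∃ F : EuclideanSpace ℂ (Fin n) → EuclideanSpace ℂ (Fin n),
      IsEmb (egg i0 i1) F ∧ F (pt i0 i1 a t) = 0 ∧ ball 0 r ⊆ F '' egg i0 i1} :=
    ⟨Real.sqrt_pos.2 ht2, FF i0 i1 a t, FF_emb h01 ha ht, FF_pt h01 t ha,
      FF_surj h01 ha ht0 ht1 (Real.sq_sqrt ht2.le).le⟩
  unfold squeeze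
  exact ⟨le_csSup ⟨1, squeeze_le_one _ _⟩ hmem, csSup_le ⟨_, hmem⟩ (squeeze_le_one _ _)⟩

lemma pt_cont : Continuous fun s : ℝ => pt i0 i1 s s := by
  unfold pt mk
  refine (PiLp.continuous_toLp 2 _).comp ?_
  refine continuous_pi fun i => ?_
  by_cases h0 : i = i0
  · simp only [if_pos h0]
    exact Complex.continuous_ofReal
  · by_cases h1 : i = i1
    · simp only [if_neg h0, if_pos h1]
      fun_prop
    · simp only [if_neg h0, if_neg h1]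
      fun_prop

/-- the boundary point -/
noncomputable def pp (i0 i1 : Fin n) : EuclideanSpace ℂ (Fin n) := mk i0 i1 1 0 0 0

lemma pt_one : pt i0 i1 1 1 = pp i0 i1 := by
  unfold pt pp
  congr 1
  norm_num

theorem exists_seq (h01 : i0 ≠ i1) [NeZero n] :
    ∃ z : ℕ → EuclideanSpace ℂ (Fin n), (∀ k, z k ∈ egg i0 i1) ∧
      Tendsto z atTop (𝓝 (pp i0 i1)) ∧
      Tendsto (fun k => squeeze (egg i0 i1) (z k)) atTop (𝓝 1) := by
  have hs : Tendsto (fun k : ℕ => 1 - 1 / ((k : ℝ) + 4)) atTop (𝓝 1) := by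
    have h1 : Tendsto (fun k : ℕ => (k : ℝ) + 4) atTop atTop :=
      tendsto_atTop_add_const_right _ _ tendsto_natCast_atTop_atTop
    have h2 : Tendsto (fun k : ℕ => 1 / ((k : ℝ) + 4)) atTop (𝓝 0) := by
      simp only [one_div]
      exact h1.inv_tendsto_atTop
    simpa using h2.const_sub (1 : ℝ)
  have hlo : ∀ k : ℕ, (3 / 4 : ℝ) ≤ 1 - 1 / ((k : ℝ) + 4) := by
    intro k
    have h1 : (0 : ℝ) ≤ k := Nat.cast_nonneg k
    have h2 : 1 / ((k : ℝ) + 4) ≤ 1 / 4 := one_div_le_one_div_of_le (by norm_num) (by linarith)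
    linarith
  have hhi : ∀ k : ℕ, 1 - 1 / ((k : ℝ) + 4) < 1 := by
    intro k
    have h1 : (0 : ℝ) ≤ k := Nat.cast_nonneg k
    have : 0 < 1 / ((k : ℝ) + 4) := by positivity
    linarith
  have habs : ∀ k : ℕ, |1 - 1 / ((k : ℝ) + 4)| < 1 := by
    intro k
    rw [abs_of_nonneg (by linarith [hlo k])]
    exact hhi k
  have hpos : ∀ k : ℕ, 0 < 2 * (1 - 1 / ((k : ℝ) + 4)) ^ 2 - 1 := by
    intro k
    have := hlo k
    nlinarith
  refine ⟨fun k => pt i0 i1 (1 - 1 / ((k : ℝ) + 4)) (1 - 1 / ((k : ℝ) + 4)), fun k =>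
    pt_egg h01 (habs k) (by linarith [hlo k]) (hhi k), ?_, ?_⟩
  · have h := ((pt_cont (i0 := i0) (i1 := i1)).tendsto 1).comp hs
    rw [pt_one] at h
    exact h
  · have h1 : Tendsto (fun k : ℕ => √(2 * (1 - 1 / ((k : ℝ) + 4)) ^ 2 - 1)) atTop (𝓝 1) := by
      have hc : Continuous fun s : ℝ => √(2 * s ^ 2 - 1) := by fun_prop
      have := (hc.tendsto 1).comp hs
      norm_num at this
      simpa [Function.comp_def] using this
    refine tendsto_of_tendsto_of_tendsto_of_le_of_le h1 tendsto_const_nhds (fun k => ?_)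
      (fun k => ?_)
    · exact (squeeze_ge h01 (habs k) (by linarith [hlo k]) (hhi k) (hpos k)).1
    · exact (squeeze_ge h01 (habs k) (by linarith [hlo k]) (hhi k) (hpos k)).2

end N298.SQ
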