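import Pool.Agent.N298.SQ.Weak

/-!
# The boundary of the egg has type at most four
-/

set_option autoImplicit false

namespace N298.SQ

open Set Metric Filter Topology
open scoped ContDiff

variable {n : ℕ} {i0 i1 : Fin n}

/-- comparison of orders -/
lemma order_le {a b : ℕ} {u v : ℂ → ℂ} (hu : ContinuousAt u 0) (hv : ContinuousAt v 0)
    (h0 : u 0 ≠ 0) (h : ∀ᶠ ζ in 𝓝 (0 : ℂ), ζ ^ a * u ζ = ζ ^ b * v ζ) : b ≤ a := by
  by_contra hcon
  rw [not_le] at hcon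
  have h1 : Tendsto u (𝓝[≠] 0) (𝓝 (u 0)) := hu.tendsto.mono_left nhdsWithin_le_nhds
  have h2 : Tendsto (fun ζ : ℂ => ζ ^ (b - a) * v ζ) (𝓝[≠] 0) (𝓝 (0 ^ (b - a) * v 0)) :=
    ((tendsto_id.pow (b - a)).mul hv.tendsto).mono_left nhdsWithin_le_nhds
  rw [zero_pow (by omega), zero_mul] at h2
  have h3 : u =ᶠ[𝓝[≠] 0] fun ζ : ℂ => ζ ^ (b - a) * v ζ := by
    filter_upwards [nhdsWithin_le_nhds h, self_mem_nhdsWithin] with ζ h4 h5
    have h6 : ζ ^ a ≠ 0 := pow_ne_zero _ h5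
    have h7 : ζ ^ b = ζ ^ a * ζ ^ (b - a) := by
      rw [← pow_add]
      congr 1
      omega
    rw [h7, mul_assoc] at h4
    exact mul_left_cancel₀ h6 h4
  exact h0 (tendsto_nhds_unique h1 (h2.congr' h3.symm))

/-- squaring the `i1`-coordinate -/
noncomputable def sqc (i0 i1 : Fin n) (z : EuclideanSpace ℂ (Fin n)) : EuclideanSpace ℂ (Fin n) :=
  mk i0 i1 (z i0) (z i1 ^ 2) 1 z

lemma sqc_norm (h01 : i0 ≠ i1) (z : EuclideanSpace ℂ (Fin n)) :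
    ‖sqc i0 i1 z‖ ^ 2 = rho i0 i1 z + 1 := by
  rw [norm_split h01]
  unfold sqc rho
  rw [RR_mk, mk_i0, mk_i1 h01, norm_pow]
  simp
  ring

lemma sqc_i1 (h01 : i0 ≠ i1) (z : EuclideanSpace ℂ (Fin n)) : sqc i0 i1 z i1 = z i1 ^ 2 :=
  mk_i1 h01 _ _ _ _

lemma sqc_ne {i : Fin n} (hi : i ≠ i1) (z : EuclideanSpace ℂ (Fin n)) :
    sqc i0 i1 z i = z i := by
  unfold sqc
  rw [mk_apply]
  split_ifs with h
  · rw [h]
  · ring

lemma sqc_analytic {γ : ℂ → EuclideanSpace ℂ (Fin n)} (hγ : AnalyticAt ℂ γ 0) :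
    AnalyticAt ℂ (fun ζ => sqc i0 i1 (γ ζ)) 0 := by
  have h1 : Differentiable ℂ (sqc i0 i1) := by
    have : DifferentiableOn ℂ (sqc i0 i1) univ := by
      unfold sqc
      exact mk_diff (coord_diff i0 _) ((coord_diff i1 _).pow 2) (differentiableOn_const _)
    exact differentiableOn_univ.1 this
  have h2 : ∀ᶠ ζ in 𝓝 (0 : ℂ), DifferentiableAt ℂ (fun ζ => sqc i0 i1 (γ ζ)) ζ := by
    filter_upwards [hγ.eventually_analyticAt] with ζ hζ
    exact (h1 (γ ζ)).comp ζ hζ.differentiableAt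
  exact Complex.analyticAt_iff_eventually_differentiableAt.2 h2

lemma eval_cont {h : ℂ → EuclideanSpace ℂ (Fin n)} (hh : AnalyticAt ℂ h 0) (i : Fin n) :
    ContinuousAt (fun ζ => h ζ i) 0 := by
  have h1 : Continuous fun z : EuclideanSpace ℂ (Fin n) => z i := by fun_prop
  exact h1.continuousAt.comp hh.continuousAt

/-- the order of the squared curve -/
lemma exists_order (h01 : i0 ≠ i1) {γ : ℂ → EuclideanSpace ℂ (Fin n)} (hγ : AnalyticAt ℂ γ 0)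
    {j : ℕ} {h : ℂ → EuclideanSpace ℂ (Fin n)} (hh : AnalyticAt ℂ h 0) (h0 : h 0 ≠ 0)
    (he : ∀ᶠ ζ in 𝓝 (0 : ℂ), γ ζ - γ 0 = ζ ^ j • h ζ) :
    ∃ (j' : ℕ) (H : ℂ → EuclideanSpace ℂ (Fin n)), 1 ≤ j' ∧ j' ≤ 2 * j ∧ AnalyticAt ℂ H 0 ∧ H 0 ≠ 0 ∧
      ∀ᶠ ζ in 𝓝 (0 : ℂ), sqc i0 i1 (γ ζ) - sqc i0 i1 (γ 0) = ζ ^ j' • H ζ := by
  -- coordinates
  have hj1 : 1 ≤ j := by
    by_contra hcon
    have hj0 : j = 0 := by omega
    have := he.self_of_nhds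
    rw [hj0] at this
    simp at this
    exact h0 this.symm
  have hc1 : ∀ᶠ ζ in 𝓝 (0 : ℂ), (sqc i0 i1 (γ ζ) - sqc i0 i1 (γ 0)) i1 =
      ζ ^ j * (2 * γ 0 i1 * h ζ i1 + ζ ^ j * h ζ i1 ^ 2) := by
    filter_upwards [he] with ζ hζ
    have h2 : γ ζ i1 = γ 0 i1 + ζ ^ j * h ζ i1 := by
      have : (γ ζ - γ 0) i1 = (ζ ^ j • h ζ) i1 := by rw [hζ]
      have h3 : γ ζ i1 - γ 0 i1 = ζ ^ j * h ζ i1 := this
      rw [← h3]
      ring
    change sqc i0 i1 (γ ζ) i1 - sqc i0 i1 (γ 0) i1 = _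
    rw [sqc_i1 h01, sqc_i1 h01, h2]
    ring
  have hc2 : ∀ i, i ≠ i1 → ∀ᶠ ζ in 𝓝 (0 : ℂ), (sqc i0 i1 (γ ζ) - sqc i0 i1 (γ 0)) i =
      ζ ^ j * h ζ i := by
    intro i hi
    filter_upwards [he] with ζ hζ
    have : (γ ζ - γ 0) i = (ζ ^ j • h ζ) i := by rw [hζ]
    change sqc i0 i1 (γ ζ) i - sqc i0 i1 (γ 0) i = _
    rw [sqc_ne hi, sqc_ne hi]
    exact this
  -- any factorization has small order
  have key : ∀ (b : ℕ) (V : ℂ → EuclideanSpace ℂ (Fin n)), AnalyticAt ℂ V 0 →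
      (∀ᶠ ζ in 𝓝 (0 : ℂ), sqc i0 i1 (γ ζ) - sqc i0 i1 (γ 0) = ζ ^ b • V ζ) → b ≤ 2 * j := by
    intro b V hV hb
    have hbi : ∀ i, ∀ᶠ ζ in 𝓝 (0 : ℂ), (sqc i0 i1 (γ ζ) - sqc i0 i1 (γ 0)) i = ζ ^ b * V ζ i := by
      intro i
      filter_upwards [hb] with ζ hζ
      rw [hζ]
      rfl
    by_cases hex : ∃ i, i ≠ i1 ∧ h 0 i ≠ 0
    · obtain ⟨i, hi, hi0⟩ := hex
      have := order_le (eval_cont hh i) (eval_cont hV i) hi0 (by
        filter_upwards [hc2 i hi, hbi i] with ζ e1 e2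
        rw [← e1, e2])
      omega
    · push Not at hex
      have h1 : h 0 i1 ≠ 0 := by
        intro h1
        apply h0
        ext i
        by_cases hi : i = i1
        · rw [hi]
          exact h1
        · exact hex i hi
      by_cases hq : γ 0 i1 = 0
      · have := order_le (a := 2 * j) (u := fun ζ => h ζ i1 ^ 2) ((eval_cont hh i1).pow 2)
          (eval_cont hV i1) (pow_ne_zero 2 h1) (by
            filter_upwards [hc1, hbi i1] with ζ e1 e2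
            rw [← e2, e1, hq]
            ring)
        omega
      · have := order_le (a := j) (u := fun ζ => 2 * γ 0 i1 * h ζ i1 + ζ ^ j * h ζ i1 ^ 2)
          (v := fun ζ => V ζ i1)
          (((eval_cont hh i1).const_mul _).add ((continuousAt_id.pow j).mul
            ((eval_cont hh i1).pow 2))) (eval_cont hV i1) (by
            rw [zero_pow (by omega), zero_mul, add_zero]
            exact mul_ne_zero (mul_ne_zero two_ne_zero hq) h1) (by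
            filter_upwards [hc1, hbi i1] with ζ e1 e2
            rw [← e2, e1])
        omega
  have hg : AnalyticAt ℂ (fun ζ => sqc i0 i1 (γ ζ) - sqc i0 i1 (γ 0)) 0 :=
    (sqc_analytic hγ).sub analyticAt_const
  have hnz : ¬ ∀ᶠ ζ in 𝓝 (0 : ℂ), sqc i0 i1 (γ ζ) - sqc i0 i1 (γ 0) = 0 := by
    intro hz
    have := key (2 * j + 1) (fun _ => 0) analyticAt_const (by
      filter_upwards [hz] with ζ hζ
      rw [hζ, smul_zero])
    omega
  obtain ⟨j', H, hH, hH0, hHe⟩ := hg.exists_eventuallyEq_pow_smul_nonzero_iff.2 hnz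
  simp only [sub_zero] at hHe
  refine ⟨j', H, ?_, key j' H hH hHe, hH, hH0, hHe⟩
  by_contra hcon
  have hj0 : j' = 0 := by omega
  have := hHe.self_of_nhds
  rw [hj0] at this
  simp at this
  exact hH0 this.symm

/-- mean value inequality -/
lemma mean_ineq {Γ0 H0 : EuclideanSpace ℂ (Fin n)} {H : ℂ → EuclideanSpace ℂ (Fin n)} {j : ℕ}
    (hj : 1 ≤ j) {s M : ℝ} (hs : 0 < s) (hH : ∀ ζ ∈ closedBall (0 : ℂ) s, AnalyticAt ℂ H ζ)
    (hH0 : H 0 = H0)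
    (hM : ∀ ζ : ℂ, ‖ζ‖ = s → ‖Γ0 + ζ ^ j • H ζ‖ ^ 2 - ‖Γ0‖ ^ 2 ≤ M) :
    s ^ (2 * j) * ‖H0‖ ^ 2 ≤ M := by
  set A : ℂ → ℂ := fun ζ => 2 * ζ ^ j * inner ℂ Γ0 (H ζ) +
    (s : ℂ) ^ (2 * j) * (2 * inner ℂ H0 (H ζ) - inner ℂ H0 H0) with hA
  have hin : ∀ (x : EuclideanSpace ℂ (Fin n)), ∀ ζ ∈ closedBall (0 : ℂ) s,
      DifferentiableAt ℂ (fun ζ => inner ℂ x (H ζ)) ζ := by
    intro x ζ hζ
    have h1 : Differentiable ℂ fun y : EuclideanSpace ℂ (Fin n) => inner ℂ x y :=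
      (innerSL ℂ x).differentiable
    exact (h1 _).comp ζ (hH ζ hζ).differentiableAt
  have hAd : ∀ ζ ∈ closedBall (0 : ℂ) s, DifferentiableAt ℂ A ζ := by
    intro ζ hζ
    have h1 := hin Γ0 ζ hζ
    have h2 := hin H0 ζ hζ
    have h3 : DifferentiableAt ℂ (fun ζ : ℂ => 2 * ζ ^ j) ζ := by fun_prop
    exact (h3.mul h1).add (((h2.const_mul 2).sub_const _).const_mul _)
  have hdc : DiffContOnCl ℂ A (ball 0 |s|) := by
    rw [abs_of_pos hs]
    refine ⟨fun ζ hζ => (hAd ζ (ball_subset_closedBall hζ)).differentiableWithinAt, ?_⟩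
    rw [closure_ball _ hs.ne']
    exact fun ζ hζ => (hAd ζ hζ).continuousAt.continuousWithinAt
  have hav := hdc.circleAverage
  have hci : CircleIntegrable A 0 s := by
    apply ContinuousOn.circleIntegrable hs.le
    intro ζ hζ
    exact (hAd ζ (sphere_subset_closedBall hζ)).continuousAt.continuousWithinAt
  have hre := Complex.reCLM.circleAverage_comp_comm hci
  have hav2 : Real.circleAverage (Complex.reCLM ∘ A) 0 s = (A 0).re := by
    rw [hre, hav]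
    rfl
  have hle : Real.circleAverage (Complex.reCLM ∘ A) 0 s ≤ M := by
    apply Real.circleAverage_mono_on_of_le_circle
    · exact (Complex.reCLM.continuous.comp_continuousOn (by
        intro ζ hζ
        exact (hAd ζ (sphere_subset_closedBall hζ)).continuousAt.continuousWithinAt :
          ContinuousOn A (sphere 0 s))).circleIntegrable hs.le
    · intro ζ hζ
      rw [abs_of_pos hs, mem_sphere_zero_iff_norm] at hζ
      refine le_trans ?_ (hM ζ hζ)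
      have e1 := norm_add_sq (𝕜 := ℂ) Γ0 (ζ ^ j • H ζ)
      have e2 := norm_sub_sq (𝕜 := ℂ) H0 (H ζ)
      rw [inner_smul_right, norm_smul, norm_pow, hζ] at e1
      rw [e1]
      have e3 : 0 ≤ ‖H0 - H ζ‖ ^ 2 := by positivity
      rw [e2] at e3
      have e4 : (Complex.reCLM ∘ A) ζ = 2 * (ζ ^ j * inner ℂ Γ0 (H ζ)).re +
          s ^ (2 * j) * (2 * (inner ℂ H0 (H ζ)).re - ‖H0‖ ^ 2) := by
        simp only [Function.comp_apply, Complex.reCLM_apply, hA]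
        rw [inner_self_eq_norm_sq_to_K]
        have h5 : ((s : ℂ) ^ (2 * j) * (2 * inner ℂ H0 (H ζ) - ((‖H0‖ : ℝ) : ℂ) ^ 2)) =
            ((s ^ (2 * j) : ℝ) : ℂ) * (2 * inner ℂ H0 (H ζ) - ((‖H0‖ ^ 2 : ℝ) : ℂ)) := by
          push_cast
          rfl
        have h6 : (2 : ℂ) * ζ ^ j * inner ℂ Γ0 (H ζ) =
            ((2 : ℝ) : ℂ) * (ζ ^ j * inner ℂ Γ0 (H ζ)) := by
          push_cast
          ring
        have h7 : (2 : ℂ) * inner ℂ H0 (H ζ) = ((2 : ℝ) : ℂ) * inner ℂ H0 (H ζ) := by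
          push_cast
          ring
        change (2 * ζ ^ j * inner ℂ Γ0 (H ζ) +
          (s : ℂ) ^ (2 * j) * (2 * inner ℂ H0 (H ζ) - ((‖H0‖ : ℝ) : ℂ) ^ 2)).re = _
        rw [h5, h6, Complex.add_re, Complex.re_ofReal_mul, Complex.re_ofReal_mul, Complex.sub_re,
          h7, Complex.re_ofReal_mul, Complex.ofReal_re]
      rw [e4]
      have e5 : (s ^ j * ‖H ζ‖) ^ 2 = s ^ (2 * j) * ‖H ζ‖ ^ 2 := by
        rw [mul_pow, ← pow_mul, mul_comm j 2]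
      rw [e5]
      have e6 : 0 < s ^ (2 * j) := by positivity
      have e7 : (2 * (inner ℂ H0 (H ζ)).re - ‖H0‖ ^ 2) ≤ ‖H ζ‖ ^ 2 := by
        have : RCLike.re (inner ℂ H0 (H ζ)) = (inner ℂ H0 (H ζ)).re := rfl
        rw [this] at e3
        linarith
      have e8 := mul_le_mul_of_nonneg_left e7 e6.le
      have e9 : RCLike.re (ζ ^ j * inner ℂ Γ0 (H ζ)) = (ζ ^ j * inner ℂ Γ0 (H ζ)).re := rfl
      rw [e9]
      linarith
  rw [hav2] at hle
  have e0 : (A 0).re = s ^ (2 * j) * ‖H0‖ ^ 2 := by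
    simp only [hA, hH0]
    rw [zero_pow (by omega), inner_self_eq_norm_sq_to_K]
    have h5 : (2 : ℂ) * 0 * inner ℂ Γ0 H0 +
        (s : ℂ) ^ (2 * j) * (2 * ((‖H0‖ : ℝ) : ℂ) ^ 2 - ((‖H0‖ : ℝ) : ℂ) ^ 2) =
        ((s ^ (2 * j) * ‖H0‖ ^ 2 : ℝ) : ℂ) := by
      push_cast
      ring
    change ((2 : ℂ) * 0 * inner ℂ Γ0 H0 +
        (s : ℂ) ^ (2 * j) * (2 * ((‖H0‖ : ℝ) : ℂ) ^ 2 - ((‖H0‖ : ℝ) : ℂ) ^ 2)).re = _
    rw [h5, Complex.ofReal_re]
  rw [e0] at hle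
  exact hle

theorem type_le (h01 : i0 ≠ i1) {q : EuclideanSpace ℂ (Fin n)} (hq : rho i0 i1 q = 0) :
    TypeLE (rho i0 i1) q 4 := by
  intro γ hγ hγ0 k m hk hm
  have hf : AnalyticAt ℂ (fun ζ => γ ζ - q) 0 := hγ.sub analyticAt_const
  have hnz : ¬ ∀ᶠ ζ in 𝓝 (0 : ℂ), γ ζ - q = 0 := by
    intro hz
    apply hk
    refine Asymptotics.IsBigO.of_bound 1 ?_
    filter_upwards [hz] with ζ hζ
    rw [hζ, norm_zero]
    positivity
  obtain ⟨j, h, hh, h0, he⟩ := hf.exists_eventuallyEq_pow_smul_nonzero_iff.2 hnz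
  simp only [sub_zero] at he
  have hjk : j ≤ k := by
    by_contra hcon
    rw [not_le] at hcon
    apply hk
    have hb : ∀ᶠ ζ in 𝓝 (0 : ℂ), ‖h ζ‖ ≤ ‖h 0‖ + 1 := by
      have := hh.continuousAt.norm
      have h2 := this.tendsto.eventually_lt_const (show ‖h 0‖ < ‖h 0‖ + 1 by linarith)
      filter_upwards [h2] with ζ hζ using hζ.le
    have hsm : ∀ᶠ ζ in 𝓝 (0 : ℂ), ‖ζ‖ < 1 := by
      have : Tendsto (fun ζ : ℂ => ‖ζ‖) (𝓝 0) (𝓝 ‖(0 : ℂ)‖) := continuous_norm.tendsto 0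
      rw [norm_zero] at this
      exact this.eventually_lt_const (by norm_num)
    refine Asymptotics.IsBigO.of_bound (‖h 0‖ + 1) ?_
    filter_upwards [he, hb, hsm] with ζ h1 h2 h3
    rw [h1, norm_smul, norm_pow, norm_pow, norm_norm]
    have h4 : ‖ζ‖ ^ j ≤ ‖ζ‖ ^ (k + 1) := pow_le_pow_of_le_one (norm_nonneg _) h3.le (by omega)
    have h5 : 0 ≤ ‖ζ‖ ^ j := by positivity
    calc ‖ζ‖ ^ j * ‖h ζ‖ ≤ ‖ζ‖ ^ j * (‖h 0‖ + 1) := mul_le_mul_of_nonneg_left h2 h5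
      _ ≤ ‖ζ‖ ^ (k + 1) * (‖h 0‖ + 1) := mul_le_mul_of_nonneg_right h4 (by positivity)
      _ = _ := by ring
  obtain ⟨j', H, hj'1, hj'2, hH, hH0, hHe⟩ := exists_order (i0 := i0) h01 hγ hh h0 (by
    rw [hγ0]
    exact he)
  obtain ⟨C, hC0, hC⟩ := hm.exists_pos
  have hC := hC.bound
  -- a radius
  obtain ⟨ε, hε, hball⟩ := Metric.eventually_nhds_iff_ball.1
    (hC.and (hHe.and hH.eventually_analyticAt))
  have hmain : ∀ s : ℝ, 0 < s → s < ε → s ^ (2 * j') * ‖H 0‖ ^ 2 ≤ C * s ^ m := by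
    intro s hs hsε
    refine mean_ineq (Γ0 := sqc i0 i1 (γ 0)) hj'1 hs ?_ rfl ?_
    · intro ζ hζ
      have hζ2 : ζ ∈ ball (0 : ℂ) ε := closedBall_subset_ball hsε hζ
      exact (hball ζ hζ2).2.2
    · intro ζ hζ
      have hζ2 : ζ ∈ ball (0 : ℂ) ε := by
        rw [mem_ball_zero_iff, hζ]
        exact hsε
      obtain ⟨h1, h2, -⟩ := hball ζ hζ2
      have h3 : sqc i0 i1 (γ 0) + ζ ^ j' • H ζ = sqc i0 i1 (γ ζ) := by
        rw [← h2]
        abel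
      rw [h3, sqc_norm h01, sqc_norm h01, hγ0, hq]
      rw [Real.norm_eq_abs, norm_pow, norm_norm, hζ] at h1
      have := le_abs_self (rho i0 i1 (γ ζ))
      linarith
  have hm2 : m ≤ 2 * j' := by
    by_contra hcon
    rw [not_le] at hcon
    have h1 : Tendsto (fun s : ℝ => C * s ^ (m - 2 * j')) (𝓝[>] 0) (𝓝 (C * 0 ^ (m - 2 * j'))) :=
      ((tendsto_id.pow (m - 2 * j')).const_mul C).mono_left nhdsWithin_le_nhds
    rw [zero_pow (by omega), mul_zero] at h1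
    have h2 : ∀ᶠ s in 𝓝[>] (0 : ℝ), ‖H 0‖ ^ 2 ≤ C * s ^ (m - 2 * j') := by
      filter_upwards [Ioo_mem_nhdsGT hε] with s hs
      have h3 := hmain s hs.1 hs.2
      have h4 : s ^ m = s ^ (2 * j') * s ^ (m - 2 * j') := by
        rw [← pow_add]
        congr 1
        omega
      have h5 : 0 < s ^ (2 * j') := pow_pos hs.1 _
      rw [h4] at h3
      have h6 : s ^ (2 * j') * ‖H 0‖ ^ 2 ≤ s ^ (2 * j') * (C * s ^ (m - 2 * j')) := by
        linarith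
      exact le_of_mul_le_mul_left h6 h5
    have h3 : ‖H 0‖ ^ 2 ≤ 0 := ge_of_tendsto h1 h2
    have h4 : 0 < ‖H 0‖ := norm_pos_iff.2 hH0
    nlinarith
  have h1 : m ≤ 4 * k := by omega
  exact_mod_cast h1

lemma egg_fin (h01 : i0 ≠ i1) {q : EuclideanSpace ℂ (Fin n)} (hq : rho i0 i1 q = 0) :
    FiniteTypeAt (egg i0 i1) q :=
  ⟨univ, rho i0 i1, egg_locDef, mem_univ _, hq, 4, type_le h01 hq⟩

end N298.SQ
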