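import Pool.Agent.N298.SQ.Geo

/-!
# The point is not strongly pseudoconvex (for any defining function)
-/

set_option autoImplicit false

namespace N298.SQ

open Set Metric Filter Topology
open scoped ContDiff

variable {n : ℕ} {i0 i1 : Fin n}

/-- the direction of the degenerate line -/
noncomputable def ee (i0 i1 : Fin n) (c : ℂ) : EuclideanSpace ℂ (Fin n) := mk i0 i1 0 c 0 0

lemma smul_ee (c d : ℂ) : c • ee i0 i1 d = ee i0 i1 (c * d) := by
  ext i
  change c * ee i0 i1 d i = _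
  unfold ee
  rw [mk_apply, mk_apply]
  split_ifs <;> simp

lemma rho_pt (h01 : i0 ≠ i1) (s : ℝ) (t : ℝ) {c : ℂ} (hc : ‖c‖ = 1) :
    rho i0 i1 (pp i0 i1 + t • ee i0 i1 c - s • pp i0 i1) = (1 - s) ^ 2 + t ^ 4 - 1 := by
  have hco : ∀ i, (pp i0 i1 + t • ee i0 i1 c - s • pp i0 i1) i =
      (pp i0 i1) i + t • (ee i0 i1 c) i - s • (pp i0 i1) i := fun i => rfl
  obtain ⟨p1, p2, p3⟩ := pp_coord h01
  have hR : RR i0 i1 (pp i0 i1 + t • ee i0 i1 c - s • pp i0 i1) = 0 := by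
    unfold RR
    refine Finset.sum_eq_zero fun i hi => ?_
    rw [hco, p3 i hi]
    rw [Finset.mem_erase, Finset.mem_erase] at hi
    unfold ee
    rw [mk_apply, if_neg hi.2.1, if_neg hi.1]
    simp
  unfold rho
  rw [hR, hco, hco, p1, p2]
  unfold ee
  rw [mk_i0, mk_i1 h01]
  have e1 : ‖(1 : ℂ) + t • (0 : ℂ) - s • (1 : ℂ)‖ ^ 2 = (1 - s) ^ 2 := by
    have : (1 : ℂ) + t • (0 : ℂ) - s • (1 : ℂ) = ((1 - s : ℝ) : ℂ) := by
      rw [Complex.real_smul, Complex.real_smul]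
      push_cast
      ring
    rw [this, Complex.norm_real, Real.norm_eq_abs, sq_abs]
  have e2 : ‖(0 : ℂ) + t • c - s • (0 : ℂ)‖ ^ 4 = t ^ 4 := by
    rw [smul_zero, sub_zero, zero_add, norm_smul, hc, mul_one, Real.norm_eq_abs]
    rw [show |t| ^ 4 = (|t| ^ 2) ^ 2 by ring, sq_abs]
    ring
  rw [e1, e2]
  ring

/-- second derivative test -/
lemma second_le {g : ℝ → ℝ} (hg : ContDiffAt ℝ 2 g 0) (h0 : g 0 = 0)
    (h1 : ∀ᶠ t in 𝓝 (0 : ℝ), 0 ≤ g t) {K : ℝ} (h2 : ∀ᶠ t in 𝓝 (0 : ℝ), g t ≤ K * t ^ 4) :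
    deriv g 0 = 0 ∧ deriv (deriv g) 0 ≤ 0 := by
  have hd : deriv g 0 = 0 := by
    have : IsLocalMin g 0 := by
      filter_upwards [h1] with t ht
      rw [h0]
      exact ht
    exact this.deriv_eq_zero
  refine ⟨hd, ?_⟩
  by_contra hcon
  rw [not_le] at hcon
  have hpd : ∀ t : ℝ, HasDerivAt (fun t : ℝ => K * t ^ 4) (4 * K * t ^ 3) t := by
    intro t
    have := ((hasDerivAt_id t).pow 4).const_mul K
    refine this.congr_deriv ?_
    simp
    ring
  have hpd2 : HasDerivAt (fun t : ℝ => 4 * K * t ^ 3) 0 0 := by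
    have := ((hasDerivAt_id (0 : ℝ)).pow 3).const_mul (4 * K)
    refine this.congr_deriv ?_
    simp
  have hdiff : ∀ᶠ t in 𝓝 (0 : ℝ), DifferentiableAt ℝ g t := by
    have := hg.eventually (by simp)
    filter_upwards [this] with t ht
    exact ht.differentiableAt (by simp)
  have hG1 : deriv (fun t => g t - K * t ^ 4) =ᶠ[𝓝 0] fun t => deriv g t - 4 * K * t ^ 3 := by
    filter_upwards [hdiff] with t ht
    exact (ht.hasDerivAt.sub (hpd t)).deriv
  have hdd : DifferentiableAt ℝ (deriv g) 0 := by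
    have h3 : ContDiffAt ℝ 1 (fderiv ℝ g) 0 := hg.fderiv_right (by norm_num)
    have h4 : ContDiffAt ℝ 1 (fun x => fderiv ℝ g x 1) 0 := h3.clm_apply contDiffAt_const
    exact h4.differentiableAt (by simp)
  have hG2 : deriv (deriv fun t => g t - K * t ^ 4) 0 = deriv (deriv g) 0 := by
    have h5 : HasDerivAt (fun t => deriv g t - 4 * K * t ^ 3) (deriv (deriv g) 0 - 0) 0 :=
      hdd.hasDerivAt.sub hpd2
    rw [hG1.deriv_eq, h5.deriv, sub_zero]
  have hG3 : deriv (fun t => g t - K * t ^ 4) 0 = 0 := by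
    rw [hG1.eq_of_nhds, hd]
    simp
  have hmin : IsLocalMin (fun t => g t - K * t ^ 4) 0 := by
    refine isLocalMin_of_deriv_deriv_pos ?_ hG3 ?_
    · rw [hG2]
      exact hcon
    · exact (hg.continuousAt).sub (by fun_prop)
  have hz : (fun t => g t - K * t ^ 4) =ᶠ[𝓝 0] fun _ => 0 := by
    filter_upwards [hmin, h2] with t ht1 ht2
    simp only [h0] at ht1
    norm_num at ht1
    linarith
  have h5 : deriv (deriv fun t => g t - K * t ^ 4) 0 = 0 := by
    have h6 : deriv (fun t => g t - K * t ^ 4) =ᶠ[𝓝 0] fun _ => 0 := by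
      have := hz.deriv
      simpa using this
    rw [h6.deriv_eq]
    simp
  rw [hG2] at h5
  linarith

theorem not_strong (h01 : i0 ≠ i1) : ¬ StronglyPsc (egg i0 i1) (pp i0 i1) := by
  rintro ⟨U, r, hL, hpU, hrp, hpos⟩
  have key : ∀ c : ℂ, ‖c‖ = 1 → fderiv ℝ r (pp i0 i1) (ee i0 i1 c) = 0 ∧
      hess r (pp i0 i1) (ee i0 i1 c) ≤ 0 := by
    intro c hc
    have hUn : U ∈ 𝓝 (pp i0 i1) := hL.isOpen.mem_nhds hpU
    have hsm : ContDiffAt ℝ ∞ r (pp i0 i1) := hL.smooth.contDiffAt hUn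
    have hsm2 : ContDiffAt ℝ 2 r (pp i0 i1) := hsm.of_le (WithTop.coe_le_coe.2 (le_top : (2 : ℕ∞) ≤ ⊤))
    obtain ⟨K, s, hs, hK⟩ := (hsm.of_le (m := 1) (by exact_mod_cast le_top)).exists_lipschitzOnWith
    have hline : Continuous fun t : ℝ => pp i0 i1 + t • ee i0 i1 c := by fun_prop
    have hline2 : Continuous fun t : ℝ => pp i0 i1 + t • ee i0 i1 c - (t ^ 4) • pp i0 i1 := by
      fun_prop
    have hl0 : pp i0 i1 + (0 : ℝ) • ee i0 i1 c = pp i0 i1 := by simp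
    have hl20 : pp i0 i1 + (0 : ℝ) • ee i0 i1 c - ((0 : ℝ) ^ 4) • pp i0 i1 = pp i0 i1 := by simp
    have t1 : Tendsto (fun t : ℝ => pp i0 i1 + t • ee i0 i1 c) (𝓝 0) (𝓝 (pp i0 i1)) := by
      have := hline.tendsto 0
      rwa [hl0] at this
    have t2 : Tendsto (fun t : ℝ => pp i0 i1 + t • ee i0 i1 c - (t ^ 4) • pp i0 i1) (𝓝 0)
        (𝓝 (pp i0 i1)) := by
      have := hline2.tendsto 0
      rwa [hl20] at this
    have hg : ContDiffAt ℝ 2 (fun t : ℝ => r (pp i0 i1 + t • ee i0 i1 c)) 0 := by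
      have h3 : ContDiffAt ℝ 2 r (pp i0 i1 + (0 : ℝ) • ee i0 i1 c) := by rwa [hl0]
      exact h3.comp (0 : ℝ) (by fun_prop)
    have hsmall : ∀ᶠ t in 𝓝 (0 : ℝ), |t| < 1 := by
      have : Tendsto (fun t : ℝ => |t|) (𝓝 0) (𝓝 |0|) := continuous_abs.tendsto 0
      rw [abs_zero] at this
      exact this.eventually_lt_const (by norm_num)
    have a1 : ∀ᶠ t in 𝓝 (0 : ℝ), 0 ≤ r (pp i0 i1 + t • ee i0 i1 c) := by
      filter_upwards [t1 hUn] with t ht
      by_contra hcon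
      rw [not_le] at hcon
      have h4 : pp i0 i1 + t • ee i0 i1 c ∈ egg i0 i1 ∩ U := by
        rw [hL.eq]
        exact ⟨ht, hcon⟩
      have h5 : rho i0 i1 (pp i0 i1 + t • ee i0 i1 c) < 0 := h4.1
      have h6 := rho_pt h01 0 t hc
      rw [zero_smul, sub_zero] at h6
      rw [h6] at h5
      have : 0 ≤ t ^ 4 := by positivity
      linarith
    have a2 : ∀ᶠ t in 𝓝 (0 : ℝ), r (pp i0 i1 + t • ee i0 i1 c) ≤
        (K * ‖pp i0 i1‖) * t ^ 4 := by
      filter_upwards [t1 hs, t2 hs, t2 hUn, hsmall] with t ht1 ht2 ht3 ht4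
      rcases eq_or_ne t 0 with rfl | ht0
      · rw [hl0, hrp]
        simp
      have h7 : rho i0 i1 (pp i0 i1 + t • ee i0 i1 c - (t ^ 4) • pp i0 i1) < 0 := by
        rw [rho_pt h01 _ t hc]
        have h8 : t ^ 2 < 1 := by
          rw [← sq_abs]
          have := abs_nonneg t
          nlinarith
        have h9 : 0 < t ^ 2 := by positivity
        have h10 : t ^ 4 < 1 := by nlinarith
        have h11 : 0 < t ^ 4 := by positivity
        nlinarith
      have h8 : r (pp i0 i1 + t • ee i0 i1 c - (t ^ 4) • pp i0 i1) < 0 := by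
        have : pp i0 i1 + t • ee i0 i1 c - (t ^ 4) • pp i0 i1 ∈ egg i0 i1 ∩ U := ⟨h7, ht3⟩
        rw [hL.eq] at this
        exact this.2
      have h9 := hK.dist_le_mul _ ht1 _ ht2
      rw [Real.dist_eq, dist_eq_norm, sub_sub_cancel, norm_smul, Real.norm_eq_abs,
        abs_of_nonneg (by positivity : 0 ≤ t ^ 4)] at h9
      have h10 := le_abs_self (r (pp i0 i1 + t • ee i0 i1 c) -
        r (pp i0 i1 + t • ee i0 i1 c - (t ^ 4) • pp i0 i1))
      nlinarith
    have h0 : (fun t : ℝ => r (pp i0 i1 + t • ee i0 i1 c)) 0 = 0 := by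
      simp only [hl0]
      exact hrp
    obtain ⟨b1, b2⟩ := second_le hg h0 a1 a2
    refine ⟨?_, b2⟩
    have h3 := (fderiv_line (hsm2.differentiableAt (by simp)) (ee i0 i1 c)).deriv
    rw [← h3]
    exact b1
  obtain ⟨c1, c2⟩ := key 1 (by simp)
  obtain ⟨d1, d2⟩ := key Complex.I (by simp)
  have hne : ee i0 i1 1 ≠ 0 := by
    intro h
    have h2 : ee i0 i1 1 i1 = (0 : EuclideanSpace ℂ (Fin n)) i1 := by rw [h]
    unfold ee at h2
    rw [mk_i1 h01] at h2
    exact one_ne_zero h2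
  have hI : Complex.I • ee i0 i1 1 = ee i0 i1 Complex.I := by rw [smul_ee, mul_one]
  have h1 := hpos (ee i0 i1 1) hne ⟨c1, by rw [hI]; exact d1⟩
  unfold levi at h1
  rw [hI] at h1
  linarith

end N298.SQ
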